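import Pool.Agent.MP_94218c_al.Mg.Loop

/-!
A large family of representations, and the certificate it gives.
-/

namespace Pool.Agent.MP_94218c_al

open Matrix

theorem family {F : Type} [Field F] {N : ℕ} (hN : 0 < N) (U : Matrix (Fin N) (Fin N) F)
    (hU : U * U = 0) (c : Fin 10 → F) (hc : ∑ j, c j = 0)
    (a : ℕ → FreeGroup (Fin 10) × FreeGroup (Fin 10)) (i : ℕ) (n : ℕ → ℕ)
    (hn : ∀ k < i, 0 < n k ∧ N ≤ 2 ^ (k + 5) * n k) (d : ℕ)
    (hd : d + N * ∑ k ∈ Finset.range i, n k ≤ 9 * (N * N)) :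
    ∃ (E : Type) (_ : Field E) (_ : Algebra F E) (_ : Algebra.EssFiniteType F E)
      (g g' : Fin 10 → Matrix (Fin N) (Fin N) E)
      (ρ : FreeGroup (Fin 10) →* Matrix (Fin N) (Fin N) E), (∀ j, g j * g' j = 1) ∧
      (∀ j, ρ (.of j) = g j * (algebraMap F E).mapMatrix (1 + c j • U) * g' j) ∧ Sat a i ρ ∧
      (∀ δ : Derivation F E E, (∀ j, (g j).map δ = 0) → δ = 0) ∧
      (d : Cardinal) ≤ Algebra.trdeg F E := by
  classical
  let σ := Bool × Fin 10 × Fin N × Fin N
  let X : Bool → Fin 10 → Matrix (Fin N) (Fin N) (MvPolynomial σ F) := fun b j =>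
    Matrix.of fun x y => MvPolynomial.X (b, j, x, y)
  let pt : σ → F := fun q => (1 : Matrix (Fin N) (Fin N) F) q.2.2.1 q.2.2.2
  let e₀ : MvPolynomial σ F →ₐ[F] F := MvPolynomial.aeval pt
  have x0 : ∀ b j, e₀.mapMatrix (X b j) = 1 := fun b j => by ext x y; simp [e₀, X, pt]
  let f : Fin 10 × Fin N × Fin N → MvPolynomial σ F := fun q =>
    (X true q.1 * X false q.1 - 1) q.2.1 q.2.2
  obtain ⟨P₀, _, p1, p2⟩ := cut e₀ (Finset.univ.image f) (Finset.forall_mem_image.mpr fun q _ => by
    have : e₀.mapMatrix (X true q.1 * X false q.1 - 1) = 0 := by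
      rw [map_sub, map_mul, x0, x0, map_one, mul_one, sub_self]
    exact congrFun (congrFun this _) _) (d := 10 * (N * N)) (le_trans (Nat.cast_le.mpr (by
      have : (Finset.univ.image f).card ≤ 10 * (N * N) := Finset.card_image_le.trans (by simp)
      simp only [σ, Fintype.card_prod, Fintype.card_bool, Fintype.card_fin]
      omega)) (ht_poly σ pt))
  let π₀ := Ideal.Quotient.mkₐ F P₀
  let e₁ := Ideal.Quotient.liftₐ P₀ e₀ fun _ hx => p2.le hx
  let G : Bool → Fin 10 → Matrix (Fin N) (Fin N) (MvPolynomial σ F ⧸ P₀) := fun b j =>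
    π₀.mapMatrix (X b j)
  have g1 : ∀ j, G true j * G false j = 1 := fun j => by
    rw [← map_mul, ← map_one π₀.mapMatrix, ← sub_eq_zero, ← map_sub]
    exact Matrix.ext fun x y => Ideal.Quotient.eq_zero_iff_mem.mpr
      (p1 (f (j, x, y)) (Finset.mem_image_of_mem f (Finset.mem_univ _)))
  have g2 : ∀ b j, e₁.mapMatrix (G b j) = 1 := fun b j => x0 b j
  let χ : Multiplicative F →* Matrix (Fin N) (Fin N) F :=
    { toFun := fun t => 1 + t.toAdd • U
      map_one' := by simp
      map_mul' := fun s t => by simp [mul_add, add_mul, hU, add_smul, add_assoc] }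
  let al := (Algebra.ofId F (MvPolynomial σ F ⧸ P₀)).mapMatrix (m := Fin N)
  let ρ₁ : FreeGroup (Fin 10) →* Matrix (Fin N) (Fin N) (MvPolynomial σ F ⧸ P₀) :=
    (Units.coeHom _).comp (FreeGroup.lift fun j =>
      ⟨G true j, G false j, g1 j, mul_eq_one_comm.mp (g1 j)⟩ *
        Units.map (al : _ →* _) (χ.toHomUnits (.ofAdd (c j))) *
        ⟨G false j, G true j, mul_eq_one_comm.mp (g1 j), g1 j⟩)
  have r1 : ∀ j, ρ₁ (.of j) = G true j * al (1 + c j • U) * G false j := fun j => by
    simp only [ρ₁, MonoidHom.comp_apply, FreeGroup.lift_apply_of]; rfl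
  have r2 : (e₁.mapMatrix (m := Fin N) : _ →* _).comp ρ₁ =
      χ.comp (FreeGroup.lift fun j => .ofAdd (c j)) := FreeGroup.ext_hom _ _ fun j => by
    have : ∀ x, e₁.mapMatrix (al x) = x := fun x => Matrix.ext fun _ _ => e₁.commutes _
    simp only [MonoidHom.comp_apply, r1, MonoidHom.coe_coe, map_mul, g2, this,
      FreeGroup.lift_apply_of, one_mul, mul_one]
    rfl
  have r3 : ∀ γ, ∃ t : F, e₁.mapMatrix (ρ₁ γ - 1) = t • U := fun γ => ⟨_, by
    rw [map_sub, map_one, sub_eq_iff_eq_add']; exact DFunLike.congr_fun r2 γ⟩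
  obtain ⟨P₁, hP₁, q1, q2⟩ := step0 e₁ (n := N) (M := 1) (d := d + N * ∑ k ∈ Finset.range i, n k)
    hN (one_mul N).ge (ρ₁ (List.ofFn FreeGroup.of).prod - 1) (fun x y => by
      have : e₁.mapMatrix (ρ₁ (List.ofFn FreeGroup.of).prod - 1) = 0 := by
        rw [map_sub, map_one, sub_eq_zero]
        refine (DFunLike.congr_fun r2 _).trans ?_
        rw [MonoidHom.comp_apply, map_list_prod (FreeGroup.lift _), List.map_ofFn, List.prod_ofFn]
        simp only [Function.comp_apply, FreeGroup.lift_apply_of, ← ofAdd_sum, hc, ofAdd_zero,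
          map_one]
      exact congrFun (congrFun this _) _) (le_trans (Nat.cast_le.mpr (by omega)) p2.quot)
  obtain ⟨P, _, q3, q4, q5⟩ := multi e₁ n (fun k => 2 ^ (k + 5))
    (fun k => (ρ₁ (a k).1 - 1) * (ρ₁ (a k).2 - 1)) (fun k x y => by
      obtain ⟨s, hs⟩ := r3 (a k).1
      obtain ⟨t, ht⟩ := r3 (a k).2
      have : e₁.mapMatrix ((ρ₁ (a k).1 - 1) * (ρ₁ (a k).2 - 1)) = 0 := by
        rw [map_mul, hs, ht, smul_mul_smul_comm, hU, smul_zero]
      exact congrFun (congrFun this _) _) i hn d P₁ hP₁ q2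
  let S := (MvPolynomial σ F ⧸ P₀) ⧸ P
  let E := FractionRing S
  let φ : (MvPolynomial σ F ⧸ P₀) →ₐ[F] E :=
    (IsScalarTower.toAlgHom F S E).comp (Ideal.Quotient.mkₐ F P)
  have f1 : ∀ Y : Matrix (Fin N) (Fin N) _, (∀ x y, Y x y ∈ P) → φ.mapMatrix Y = 0 :=
    fun Y h => Matrix.ext fun x y => by
      change algebraMap S E (Ideal.Quotient.mk P (Y x y)) = 0
      rw [Ideal.Quotient.eq_zero_iff_mem.mpr (h x y), map_zero]
  have : Algebra.EssFiniteType S E := .of_isLocalization _ (nonZeroDivisors S)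
  have f2 : ∀ j, φ.mapMatrix (G true j) * φ.mapMatrix (G false j) = 1 := fun j => by
    rw [← map_mul, g1, map_one]
  refine ⟨E, inferInstance, inferInstance, .comp F S E, fun j => φ.mapMatrix (G true j),
    fun j => φ.mapMatrix (G false j), (φ.mapMatrix (m := Fin N) : _ →* _).comp ρ₁, f2, fun j => ?_,
    ⟨fun j => ?_, ?_, fun k hk => ?_⟩, fun δ h => ?_, ?_⟩
  · simp only [MonoidHom.comp_apply, r1, MonoidHom.coe_coe, map_mul]
    rw [show φ.mapMatrix (al (1 + c j • U)) = (algebraMap F E).mapMatrix (1 + c j • U) from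
      Matrix.ext fun _ _ => φ.commutes _]
  · have h1 : ρ₁ (.of j) - 1 = G true j * al (c j • U) * G false j := by
      rw [r1, map_add, map_one, mul_add, add_mul, mul_one, g1, add_sub_cancel_left]
    have h2 : (ρ₁ (.of j) - 1) * (ρ₁ (.of j) - 1) = 0 := by
      rw [h1, mul_assoc, ← mul_assoc (G false j), ← mul_assoc (G false j),
        mul_eq_one_comm.mp (g1 j), one_mul, mul_assoc, ← mul_assoc (al _), ← map_mul,
        smul_mul_smul_comm, hU, smul_zero, map_zero, zero_mul, mul_zero]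
    have := congrArg φ.mapMatrix h2
    rwa [map_mul, map_sub, map_one, map_zero] at this
  · have := f1 _ fun x y => q3 (q1 x y)
    rwa [pow_one, map_sub, map_one, sub_eq_zero] at this
  · have := f1 _ (q4 k hk)
    rwa [map_pow, map_mul, map_sub, map_sub, map_one] at this
  · have h0 : ∀ j, (φ.mapMatrix (G false j)).map δ = 0 := fun j => by
      have h1 : φ.mapMatrix (G true j) * (φ.mapMatrix (G false j)).map δ = 0 := by
        ext x y
        have h2 := congrArg δ (congrFun (congrFun (f2 j) x) y)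
        have h3 : ∀ z, δ (φ.mapMatrix (G true j) x z) = 0 := fun z => congrFun (congrFun (h j) x) z
        rw [mul_apply, map_sum, one_apply] at h2
        simp only [Derivation.leibniz, h3, mul_zero, add_zero, smul_eq_mul] at h2
        rw [mul_apply, Matrix.zero_apply]
        refine h2.trans ?_
        split_ifs <;> simp
      rw [← one_mul (map _ _), ← mul_eq_one_comm.mp (f2 j), mul_assoc, h1, mul_zero]
    have h1 : ∀ q, δ (φ (π₀ q)) = 0 := fun q => by
      induction q using MvPolynomial.induction_on with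
      | C t => rw [← MvPolynomial.algebraMap_eq, π₀.commutes, φ.commutes, δ.map_algebraMap]
      | add x y hx hy => rw [map_add, map_add, map_add, hx, hy, add_zero]
      | mul_X q s hq =>
        have : δ (φ (π₀ (MvPolynomial.X s))) = 0 := by
          obtain ⟨_ | _, j, x, y⟩ := s
          exacts [congrFun (congrFun (h0 j) x) y, congrFun (congrFun (h j) x) y]
        rw [map_mul, map_mul, δ.leibniz, hq, this, smul_zero, smul_zero, add_zero]
    have h2 : ∀ s : S, δ (algebraMap S E s) = 0 := fun s => by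
      obtain ⟨s, rfl⟩ := Ideal.Quotient.mk_surjective s
      obtain ⟨s, rfl⟩ := Ideal.Quotient.mk_surjective s
      exact h1 s
    ext x
    obtain ⟨y, z, -, rfl⟩ := IsFractionRing.div_surjective S x
    simp [δ.leibniz_div, h2]
  · have := RingHom.ker_isPrime (Ideal.Quotient.liftₐ P e₁ fun _ hx => q5.le hx)
    exact (ht_le_trdeg _ q5.quot).trans (trdeg_le_of_injective (IsScalarTower.toAlgHom F S E)
      (IsFractionRing.injective S E))

end Pool.Agent.MP_94218c_al
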