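import Mathlib

-- part MP_94218c_al.Dim
section

/-!
Local dimension counts on affine varieties with a rational point.
-/

namespace Pool.Agent.MP_94218c_al

open Cardinal

/-- A chain of `d + 1` primes between `I` and `m`. -/
def Ch {S : Type} [CommRing S] (I m : Ideal S) (d : ℕ) : Prop :=
  ∃ c : LTSeries (PrimeSpectrum S), c.length = d ∧ I ≤ c.head.asIdeal ∧ c.last.asIdeal ≤ m

theorem ch_iff {S S' : Type} [CommRing S] [CommRing S'] (π : S →+* S')
    (hπ : Function.Surjective π) (m : Ideal S') [m.IsPrime] (d : ℕ) :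
    (d : ℕ∞) ≤ m.height ↔ Ch (RingHom.ker π) (m.comap π) d := by
  constructor
  · intro h
    rw [show m.height = Order.height (⟨m, inferInstance⟩ : PrimeSpectrum S') from
      PrimeSpectrum.height_eq_orderHeight ⟨m, inferInstance⟩] at h
    obtain ⟨c, hc, hl⟩ := Order.exists_series_of_le_height _ h
    refine ⟨c.map _ (RingHom.strictMono_comap_of_surjective hπ), hl, ?_, ?_⟩
    · rw [LTSeries.head_map]; exact Ideal.ker_le_comap π
    · rw [LTSeries.last_map, hc]; exact le_rfl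
  · rintro ⟨c, rfl, h1, h2⟩
    have h3 : ∀ i, RingHom.ker π ≤ (c i).asIdeal := fun i => h1.trans (c.head_le i)
    have h4 : ∀ i, ((c i).asIdeal.map π).comap π = (c i).asIdeal := fun i => by
      rw [Ideal.comap_map_of_surjective π hπ]; exact sup_eq_left.mpr (h3 i)
    let c' : LTSeries (PrimeSpectrum S') :=
      ⟨c.length, fun i => ⟨(c i).asIdeal.map π, Ideal.map_isPrime_of_surjective hπ (h3 i)⟩,
        fun i => by
          have h5 : (c i.castSucc).asIdeal < (c i.succ).asIdeal := c.step i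
          refine lt_of_le_of_ne (Ideal.map_mono h5.le) fun e => h5.ne ?_
          rw [← h4, ← h4 i.succ]
          exact congrArg (Ideal.comap π) e⟩
    rw [show m.height = Order.height (⟨m, inferInstance⟩ : PrimeSpectrum S') from
      PrimeSpectrum.height_eq_orderHeight ⟨m, inferInstance⟩]
    exact Order.length_le_height (p := c') (Ideal.map_le_iff_le_comap.mpr h2)

variable {F : Type} [Field F]

theorem cut {S : Type} [CommRing S] [IsNoetherianRing S] [Algebra F S] (e : S →ₐ[F] F)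
    (s : Finset S) (hs : ∀ a ∈ s, e a = 0) {d : ℕ}
    (hd : ((d + s.card : ℕ) : ℕ∞) ≤ (RingHom.ker e).height) :
    ∃ P : Ideal S, P.IsPrime ∧ (∀ a ∈ s, a ∈ P) ∧ Ch P (RingHom.ker e) d := by
  have := RingHom.ker_isPrime e
  have h0 : Ideal.span (s : Set S) ≤ RingHom.ker e := Ideal.span_le.mpr hs
  have := Ideal.isPrime_map_quotientMk_of_isPrime h0
  have h1 := hd.trans (Ideal.height_le_height_add_encard_of_subset (s : Set S) hs)
  rw [Set.encard_coe_eq_coe_finsetCard, Nat.cast_add,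
    ENat.add_le_add_iff_right (ENat.natCast_ne_top _), ch_iff _ Ideal.Quotient.mk_surjective,
    Ideal.mk_ker, Ideal.comap_map_of_surjective _ Ideal.Quotient.mk_surjective,
    ← RingHom.ker_eq_comap_bot, Ideal.mk_ker, sup_eq_left.mpr h0] at h1
  obtain ⟨c, c1, c2, c3⟩ := h1
  exact ⟨c.head.asIdeal, c.head.isPrime, fun a ha => c2 (Ideal.subset_span ha), c, c1, le_rfl, c3⟩

theorem Ch.le {S : Type} [CommRing S] {I m : Ideal S} {d : ℕ} (h : Ch I m d) : I ≤ m := by
  obtain ⟨c, -, c2, c3⟩ := h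
  exact c2.trans (le_trans (c.head_le_last) c3)

theorem Ch.comap {S S' : Type} [CommRing S] [CommRing S'] (π : S →+* S')
    (hπ : Function.Surjective π) {I m : Ideal S'} {d : ℕ} (h : Ch I m d) :
    Ch (I.comap π) (m.comap π) d := by
  obtain ⟨c, c1, c2, c3⟩ := h
  refine ⟨c.map _ (RingHom.strictMono_comap_of_surjective hπ), c1, ?_, ?_⟩
  · rw [LTSeries.head_map]; exact Ideal.comap_mono c2
  · rw [LTSeries.last_map]; exact Ideal.comap_mono c3

theorem Ch.ht {S S' : Type} [CommRing S] [CommRing S'] [Algebra F S] [Algebra F S']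
    (π : S →ₐ[F] S') (hπ : Function.Surjective π) (e : S' →ₐ[F] F) (d : ℕ) :
    (d : ℕ∞) ≤ (RingHom.ker e).height ↔ Ch (RingHom.ker π) (RingHom.ker (e.comp π)) d :=
  have := RingHom.ker_isPrime e
  ch_iff π.toRingHom hπ (RingHom.ker e) d

theorem ht_poly (σ : Type) [Fintype σ] (c : σ → F) :
    (Fintype.card σ : ℕ∞) ≤ (RingHom.ker (MvPolynomial.aeval (R := F) c)).height := by
  classical
  let v := Fintype.equivFin σ
  let ψ : ℕ → MvPolynomial σ F →ₐ[F] MvPolynomial σ F := fun k =>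
    MvPolynomial.aeval fun i => if (v i : ℕ) < k then MvPolynomial.C (c i) else MvPolynomial.X i
  have hp : ∀ k, (RingHom.ker (ψ k)).IsPrime := fun k => RingHom.ker_isPrime _
  have := RingHom.ker_isPrime (MvPolynomial.aeval (R := F) c)
  have h1 : ∀ k ≤ Fintype.card σ, (k : ℕ∞) ≤ (RingHom.ker (ψ k)).height := by
    intro k hk
    induction k with
    | zero => simp
    | succ k ih =>
      have h2 : (ψ (k + 1)).comp (ψ k) = ψ (k + 1) := by
        refine MvPolynomial.algHom_ext fun i => ?_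
        by_cases h : (v i : ℕ) < k
        · simp [ψ, h, h.le]
        · simp [ψ, h]
      have h3 : RingHom.ker (ψ k) < RingHom.ker (ψ (k + 1)) := by
        refine lt_of_le_of_ne (fun f hf => ?_) fun e => ?_
        · rw [RingHom.mem_ker] at hf ⊢
          rw [← h2, AlgHom.comp_apply, hf, map_zero]
        · have : MvPolynomial.X (v.symm ⟨k, hk⟩) - MvPolynomial.C (c (v.symm ⟨k, hk⟩)) ∈
              RingHom.ker (ψ (k + 1)) := by
            simp [RingHom.mem_ker, ψ]
          rw [← e] at this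
          simp only [RingHom.mem_ker, ψ, map_sub, MvPolynomial.aeval_X, Equiv.apply_symm_apply,
            lt_irrefl, if_false, MvPolynomial.aeval_C, MvPolynomial.algebraMap_eq,
            sub_eq_zero] at this
          have := congrArg (MvPolynomial.eval fun i => c i + 1) this
          simp at this
      push_cast
      exact (add_le_add_left (ih (by omega)) 1).trans (Ideal.height_add_one_le_of_lt_of_isPrime h3)
  refine (h1 _ le_rfl).trans (Ideal.height_mono fun f hf => ?_)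
  have h2 : (MvPolynomial.aeval (R := F) c).comp (ψ (Fintype.card σ)) = MvPolynomial.aeval c := by
    refine MvPolynomial.algHom_ext fun i => ?_
    simp [ψ]
  rw [RingHom.mem_ker] at hf ⊢
  rw [← h2, AlgHom.comp_apply, hf, map_zero]

theorem ht_le_trdeg {S : Type} [CommRing S] [Nontrivial S] [Algebra F S] [Algebra.FiniteType F S]
    (m : Ideal S) [m.IsPrime] {d : ℕ} (hd : (d : ℕ∞) ≤ m.height) :
    (d : Cardinal) ≤ Algebra.trdeg F S := by
  obtain ⟨z, g, hg, hi⟩ := exists_integral_inj_algHom_of_fg F S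
  have h1 : ringKrullDim S ≤ ringKrullDim (MvPolynomial (Fin z) F) := by
    refine Order.krullDim_le_of_strictMono (PrimeSpectrum.comap g.toRingHom) fun P Q h => ?_
    algebraize [g.toRingHom]
    exact Ideal.IsIntegral.comap_lt_comap (R := MvPolynomial (Fin z) F) (I := P.asIdeal) h
  rw [MvPolynomial.ringKrullDim_of_isNoetherianRing, ringKrullDim_eq_zero_of_field, zero_add] at h1
  have h2 := (WithBot.coe_le_coe.mpr hd).trans (m.height_le_ringKrullDim_of_isPrime.trans h1)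
  have h3 : d ≤ z := by
    simp only [Nat.card_eq_fintype_card, Fintype.card_fin] at h2
    exact_mod_cast h2
  have h5 : AlgebraicIndependent F fun i => g (MvPolynomial.X i) := by
    have : MvPolynomial.aeval (fun i => g (MvPolynomial.X i)) = g :=
      MvPolynomial.algHom_ext fun i => by simp
    rw [AlgebraicIndependent, this]; exact hg
  have h4 := h5.cardinalMk_le_trdeg
  simp only [mk_fintype, Fintype.card_fin] at h4
  exact (Nat.cast_le.mpr h3).trans h4

theorem ht_of_inj {S : Type} [CommRing S] [IsDomain S] [Algebra F S] [IsNoetherianRing S] {z : ℕ}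
    (g : MvPolynomial (Fin z) F →ₐ[F] S) (hg : Function.Injective g) (hi : g.IsIntegral)
    (e : S →ₐ[F] F) : (z : ℕ∞) ≤ (RingHom.ker e).height := by
  algebraize [g.toRingHom]
  have : FaithfulSMul (MvPolynomial (Fin z) F) S :=
    (faithfulSMul_iff_algebraMap_injective _ _).mpr hg
  have := RingHom.ker_isPrime e
  have := RingHom.ker_isPrime (e.comp g)
  have : (RingHom.ker e).LiesOver (RingHom.ker (e.comp g)) := ⟨rfl⟩
  rw [Ideal.height_eq_height_add_of_liesOver_of_hasGoingDown (RingHom.ker (e.comp g))]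
  have h := ht_poly (Fin z) fun i => e (g (MvPolynomial.X i))
  rw [show MvPolynomial.aeval (fun i => e (g (MvPolynomial.X i))) = e.comp g from
    MvPolynomial.algHom_ext fun i => by simp, Fintype.card_fin] at h
  exact h.trans le_self_add

theorem kill {S A : Type} [CommRing S] [Algebra F S] [IsNoetherianRing S] [CommRing A]
    [Algebra F A] (j : A →ₐ[F] S) {z : ℕ} (g : MvPolynomial (Fin z) F →ₐ[F] A)
    (hi : g.IsIntegral) (e : S →ₐ[F] F) {d : ℕ}
    (hd : ((d + z : ℕ) : ℕ∞) ≤ (RingHom.ker e).height) :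
    ∃ P : Ideal S, P.IsPrime ∧ (∀ a, j a - algebraMap F S (e (j a)) ∈ P) ∧
      Ch P (RingHom.ker e) d := by
  classical
  let f : Fin z → S := fun i =>
    j (g (MvPolynomial.X i)) - algebraMap F S (e (j (g (MvPolynomial.X i))))
  obtain ⟨P, hP, h1, h2⟩ := cut e (Finset.univ.image f) (by simp [f]) (d := d)
    (le_trans (Nat.cast_le.mpr (Nat.add_le_add_left
      (Finset.card_image_le.trans (by simp)) d)) hd)
  refine ⟨P, hP, fun a => ?_, h2⟩
  let π := Ideal.Quotient.mkₐ F P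
  have h3 : (π.comp j).comp g = (Algebra.ofId F _).comp ((e.comp j).comp g) := by
    refine MvPolynomial.algHom_ext fun i => ?_
    have := Ideal.Quotient.eq_zero_iff_mem.mpr (h1 (f i) (by simp))
    simp only [f, map_sub, sub_eq_zero] at this
    simpa [π] using this
  obtain ⟨q, q1, q2⟩ := hi a
  have h4 : IsIntegral F (π (j a)) := by
    refine ⟨q.map ((e.comp j).comp g).toRingHom, q1.map _, ?_⟩
    have := congrArg (π.comp j) q2
    rw [map_zero, ← AlgHom.coe_toRingHom, Polynomial.hom_eval₂] at this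
    rw [Polynomial.eval₂_map, ← this]
    congr 1
    exact (congrArg AlgHom.toRingHom h3).symm
  by_contra h5
  have h6 : IsUnit (π (j a) - algebraMap F _ (e (j a))) :=
    (h4.sub isIntegral_algebraMap).isUnit fun h => h5 (Ideal.Quotient.eq_zero_iff_mem.mp (by
      rw [map_sub]; exact h))
  have := h6.map (Ideal.Quotient.liftₐ P e fun x hx => h2.le hx)
  rw [map_sub, AlgHom.commutes] at this
  simp [π] at this

open TensorProduct in
theorem ht_tensor {S W : Type} [CommRing S] [Algebra F S] [Algebra.FiniteType F S] [CommRing W]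
    [Algebra F W] [Algebra.FiniteType F W] (e : S →ₐ[F] F) (e' : W →ₐ[F] F) :
    (RingHom.ker e).height + (RingHom.ker e').height ≤
      (RingHom.ker (Algebra.TensorProduct.productMap e e')).height := by
  have := Algebra.FiniteType.isNoetherianRing F S
  have := Algebra.FiniteType.isNoetherianRing F W
  have := Algebra.FiniteType.isNoetherianRing S (S ⊗[F] W)
  let E := Algebra.TensorProduct.productMap e e'
  have := RingHom.ker_isPrime e
  have := RingHom.ker_isPrime e'
  have := RingHom.ker_isPrime E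
  have h0 : (RingHom.ker E).LiesOver (RingHom.ker e) := ⟨by ext x; simp [E]⟩
  rw [Ideal.height_eq_height_add_of_liesOver_of_hasGoingDown (RingHom.ker e) (RingHom.ker E)]
  refine add_le_add_right ?_ _
  let I := (RingHom.ker e).map (algebraMap S (S ⊗[F] W))
  have h1 : I ≤ RingHom.ker E := Ideal.map_le_iff_le_comap.mpr h0.over.le
  have := Ideal.isPrime_map_quotientMk_of_isPrime h1
  obtain ⟨d, hd⟩ := ENat.ne_top_iff_exists.mp (Ideal.height_ne_top (I := RingHom.ker e')
    Ideal.IsPrime.ne_top')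
  let π := Algebra.TensorProduct.productMap ((Algebra.ofId F W).comp e) (AlgHom.id F W)
  have hπ : Function.Surjective π := fun w => ⟨1 ⊗ₜ w, by simp [π]⟩
  have h2 : e'.comp π = E := by ext <;> simp [π, E]
  have h3 := (Ch.ht π hπ e' d).mp hd.le
  rw [← hd, ch_iff _ Ideal.Quotient.mk_surjective, Ideal.mk_ker,
    Ideal.comap_map_of_surjective _ Ideal.Quotient.mk_surjective,
    ← RingHom.ker_eq_comap_bot, Ideal.mk_ker, sup_eq_left.mpr h1]
  obtain ⟨c, c1, c2, c3⟩ := h3
  refine ⟨c, c1, le_trans (Ideal.map_le_iff_le_comap.mpr fun x hx => ?_) c2, h2 ▸ c3⟩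
  rw [RingHom.mem_ker] at hx
  simp [π, hx]

end Pool.Agent.MP_94218c_al

end

-- part MP_94218c_al.Nil
section

/-!
The variety of matrices with `Z ^ M = 0` has small codimension at the origin, so the equation
`Y ^ M = 0` is cheap.
-/

namespace Pool.Agent.MP_94218c_al

open Matrix

theorem pow_supp {ι R : Type} [Fintype ι] [DecidableEq ι] [CommRing R] (b : ι → ℤ)
    (u : Matrix ι ι R) (hu : ∀ x y, u x y ≠ 0 → b x < b y) (k : ℕ) :
    ∀ x y, (u ^ k) x y ≠ 0 → b x + k ≤ b y := by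
  induction k with
  | zero =>
    intro x y h
    rw [pow_zero, Matrix.one_apply] at h
    split_ifs at h with e
    · simp [e]
    · exact absurd rfl h
  | succ k ih =>
    intro x y h
    rw [pow_succ, Matrix.mul_apply] at h
    obtain ⟨z, -, hz⟩ := Finset.exists_ne_zero_of_sum_ne_zero h
    have h1 := ih x z (left_ne_zero_of_mul hz)
    have h2 := hu z y (right_ne_zero_of_mul hz)
    push_cast; omega

/-- The shift matrix. -/
def shift (R : Type) [CommRing R] (N n : ℕ) : Matrix (Fin N) (Fin N) R :=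
  Matrix.of fun x y => if (y : ℕ) = x + n then 1 else 0

theorem shift_pow_mul {R : Type} [CommRing R] {N : ℕ} (n : ℕ) (g : Matrix (Fin N) (Fin N) R)
    (k : ℕ) : ∀ x x' y : Fin N, (x' : ℕ) = x + k * n → (shift R N n ^ k * g) x y = g x' y := by
  induction k with
  | zero => intro x x' y h; rw [pow_zero, one_mul, show x' = x from Fin.ext (by simpa using h)]
  | succ k ih =>
    intro x x' y h
    have h1 : (x : ℕ) + n < N := by have := x'.2; rw [add_mul] at h; omega
    rw [pow_succ', mul_assoc, Matrix.mul_apply, Finset.sum_eq_single ⟨x + n, h1⟩]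
    · rw [ih ⟨x + n, h1⟩ x' y (by simp only [h]; ring)]; simp [shift]
    · intro z _ hz
      rw [shift, of_apply, if_neg fun e => hz (Fin.ext e), zero_mul]
    · simp

variable {F : Type} [Field F]

theorem nilvar (N n M : ℕ) (hn : 0 < n) (hM : N ≤ M * n) :
    ∃ (W : Type) (_ : CommRing W) (_ : Algebra F W) (_ : Algebra.FiniteType F W)
      (e : W →ₐ[F] F) (Z : Matrix (Fin N) (Fin N) W) (w : ℕ), (∀ x y, e (Z x y) = 0) ∧ Z ^ M = 0 ∧
      Algebra.adjoin F (Set.range fun q : Fin N × Fin N => Z q.1 q.2) = ⊤ ∧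
      N * N ≤ w + N * n ∧ (w : ℕ∞) ≤ (RingHom.ker e).height := by
  classical
  let σ := {q : Fin N × Fin N // (q.1 : ℕ) / n ≠ q.2 / n}
  let u : Matrix (Fin N) (Fin N) (MvPolynomial σ F) := Matrix.of fun x y =>
    if h : (x : ℕ) / n < y / n then MvPolynomial.X ⟨(x, y), h.ne⟩ else 0
  let v : Matrix (Fin N) (Fin N) (MvPolynomial σ F) := Matrix.of fun x y =>
    if h : (y : ℕ) / n < x / n then MvPolynomial.X ⟨(x, y), h.ne'⟩ else 0
  have hlev : ∀ x : Fin N, (x : ℕ) / n < M := fun x =>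
    (Nat.div_lt_iff_lt_mul hn).mpr (x.2.trans_le hM)
  have hu := pow_supp (fun x : Fin N => (((x : ℕ) / n : ℕ) : ℤ)) u fun x y h => by
    by_contra h'; exact h (dif_neg (by exact_mod_cast h'))
  have hv := pow_supp (fun x : Fin N => -(((x : ℕ) / n : ℕ) : ℤ)) (-v) fun x y h => by
    by_contra h'
    refine h (neg_eq_zero.mpr (dif_neg ?_))
    rw [neg_lt_neg_iff] at h'; exact_mod_cast h'
  have hu0 : u ^ M = 0 := by
    refine Matrix.ext fun x y => ?_
    by_contra h; have := hu M x y h; have := hlev y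
    have := Int.natCast_nonneg ((x : ℕ) / n); omega
  have hv0 : (-v) ^ M = 0 := by
    refine Matrix.ext fun x y => ?_
    by_contra h; have := hv M x y h; have := hlev x
    have := Int.natCast_nonneg ((y : ℕ) / n); omega
  let g' := ∑ i ∈ Finset.range M, (-v) ^ i
  have hg : g' * (1 + v) = 1 := by
    have := geom_sum_mul_neg (-v) M
    rwa [hv0, sub_zero, sub_neg_eq_add] at this
  have hg' : (1 + v) * g' = 1 := mul_eq_one_comm.mp hg
  let Z₀ := (1 + v) * u * g'
  have hZ : ∀ k, Z₀ ^ k * (1 + v) = (1 + v) * u ^ k := by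
    intro k
    induction k with
    | zero => simp
    | succ k ih =>
      rw [pow_succ, mul_assoc, show Z₀ * (1 + v) = (1 + v) * u by
        rw [mul_assoc, hg, mul_one], ← mul_assoc, ih, mul_assoc, ← pow_succ]
  let s : Set (MvPolynomial σ F) := Set.range fun q : Fin N × Fin N => Z₀ q.1 q.2
  let W := Algebra.adjoin F s
  have : Algebra.FiniteType F W := Algebra.FiniteType.adjoin_of_finite (Set.finite_range _)
  have := Algebra.FiniteType.isNoetherianRing F W
  obtain ⟨z, g, hg1, hi⟩ := exists_integral_inj_algHom_of_fg F W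
  let Z : Matrix (Fin N) (Fin N) W :=
    Matrix.of fun x y => ⟨Z₀ x y, Algebra.subset_adjoin ⟨(x, y), rfl⟩⟩
  let e₀ : MvPolynomial σ F →ₐ[F] F := MvPolynomial.aeval fun _ => 0
  refine ⟨W, inferInstance, inferInstance, inferInstance, e₀.comp W.val, Z, z, fun x y => ?_, ?_,
    ?_, ?_, ht_of_inj g hg1 hi _⟩
  · have h1 : e₀.mapMatrix u = 0 := by
      ext x y; by_cases h : (x : ℕ) / n < y / n <;> simp [u, e₀, h]
    have h2 : e₀.mapMatrix Z₀ = 0 := by simp only [Z₀, map_mul, h1, mul_zero, zero_mul]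
    exact congrFun (congrFun h2 x) y
  · have h1 : Z₀ ^ M = 0 := by
      rw [← mul_one (Z₀ ^ M), ← hg', ← mul_assoc, hZ, hu0, mul_zero, zero_mul]
    have h2 : W.val.mapMatrix (Z ^ M) = 0 := by rw [map_pow, ← h1]; rfl
    exact Matrix.ext fun x y => Subtype.ext (congrFun (congrFun h2 x) y)
  · rw [← Algebra.adjoin_adjoin_coe_preimage (R := F) (s := s)]
    congr 1
    ext a
    constructor
    · rintro ⟨q, rfl⟩; exact ⟨q, rfl⟩
    · rintro ⟨q, h⟩; exact ⟨q, Subtype.ext h⟩
  have hc : N * N ≤ Fintype.card σ + N * n := by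
    have h1 : Fintype.card {q : Fin N × Fin N // ¬ ((q.1 : ℕ) / n ≠ q.2 / n)} ≤
        Fintype.card (Fin N × Fin n) := by
      refine Fintype.card_le_of_injective (fun q => (q.1.1, ⟨q.1.2 % n, Nat.mod_lt _ hn⟩)) ?_
      rintro ⟨⟨x, y⟩, h⟩ ⟨⟨x', y'⟩, h'⟩ e
      simp only [Prod.mk.injEq, Fin.mk.injEq] at e
      obtain ⟨rfl, e⟩ := e
      simp only [not_not] at h h'
      refine Subtype.ext (Prod.ext rfl (Fin.ext ?_))
      simp only
      rw [← Nat.div_add_mod y n, ← Nat.div_add_mod y' n, e, ← h, h']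
    rw [Fintype.card_subtype_compl] at h1
    simp only [Fintype.card_prod, Fintype.card_fin] at h1
    exact Nat.sub_le_iff_le_add'.mp h1
  refine hc.trans (Nat.add_le_add_right ?_ _)
  by_contra hz
  let c : σ → F := fun q => shift F N n q.1.1 q.1.2
  let e₁ : MvPolynomial σ F →ₐ[F] F := MvPolynomial.aeval c
  obtain ⟨P, hP, h1, ch, c1, c2, c3⟩ := kill W.val g hi e₁ (d := 1)
    (le_trans (Nat.cast_le.mpr (by omega)) (ht_poly σ c))
  have hsh : ∀ x y : Fin N, ¬ (x : ℕ) / n < y / n → (y : ℕ) ≠ x + n := fun x y h e => by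
    rw [e, Nat.add_div_right _ hn] at h; omega
  have e1 : e₁.mapMatrix u = shift F N n := by
    ext x y
    by_cases h : (x : ℕ) / n < y / n
    · simp [u, e₁, h, c]
    · simp [u, h, shift, hsh x y h]
  have e2 : e₁.mapMatrix v = 0 := by
    ext x y
    by_cases h : (y : ℕ) / n < x / n
    · simp [v, e₁, h, c, shift, hsh x y h.le.not_gt]
    · simp [v, h]
  have e3 : e₁.mapMatrix Z₀ = shift F N n := by
    have := congrArg e₁.mapMatrix (hZ 1)
    simpa only [pow_one, map_mul, map_add, map_one, e1, e2, add_zero, mul_one, one_mul] using this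
  let π := Ideal.Quotient.mkₐ F P
  have p1 : π.mapMatrix Z₀ = shift _ N n := by
    refine Matrix.ext fun x y => ?_
    have h2 := Ideal.Quotient.eq_zero_iff_mem.mpr (h1 (Z x y))
    have h3 : e₁ (W.val (Z x y)) = shift F N n x y := congrFun (congrFun e3 x) y
    rw [h3, map_sub, sub_eq_zero] at h2
    refine h2.trans ?_
    simp only [shift, of_apply]
    split_ifs <;> simp
  have p2 : π.mapMatrix v = 0 := by
    refine Matrix.ext fun x y => ?_
    by_cases h : (y : ℕ) / n < x / n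
    · have h2 := congrArg π.mapMatrix (hZ (x / n))
      rw [map_mul, map_pow, p1] at h2
      have h3 := shift_pow_mul n (π.mapMatrix (1 + v)) (x / n)
        ⟨x % n, (Nat.mod_le _ _).trans_lt x.2⟩ x y (by simp [Nat.mod_add_div'])
      have h4 : ∀ z, (u ^ ((x : ℕ) / n)) z y = 0 := fun z => by
        by_contra h5; have := hu _ z y h5
        have := Int.natCast_nonneg ((z : ℕ) / n); omega
      have h5 : x ≠ y := fun e => by rw [e] at h; omega
      rw [h2] at h3
      simpa [Matrix.mul_apply, h4, Matrix.one_apply_ne h5] using h3.symm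
    · simp [v, h]
  have p3 : π.mapMatrix u = shift _ N n := by
    have := congrArg π.mapMatrix (hZ 1)
    simpa only [pow_one, map_mul, map_add, map_one, p1, p2, add_zero, mul_one, one_mul]
      using this.symm
  have p4 : π = (Algebra.ofId F _).comp e₁ := by
    refine MvPolynomial.algHom_ext fun ⟨⟨x, y⟩, h⟩ => ?_
    rcases lt_or_gt_of_ne h with h' | h'
    · have := congrFun (congrFun p3 x) y
      simp only [AlgHom.mapMatrix_apply, map_apply, u, of_apply, dif_pos h'] at this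
      rw [this]
      simp only [shift, of_apply, e₁, c, AlgHom.comp_apply, MvPolynomial.aeval_X]
      split_ifs <;> simp
    · have := congrFun (congrFun p2 x) y
      simp only [AlgHom.mapMatrix_apply, map_apply, v, of_apply, dif_pos h'] at this
      rw [this]
      simp [e₁, c, shift, hsh x y h'.le.not_gt]
  have p5 : RingHom.ker e₁ ≤ P := fun a ha => by
    rw [← Ideal.Quotient.eq_zero_iff_mem]
    change π a = 0
    rw [p4, AlgHom.comp_apply, RingHom.mem_ker.mp ha, map_zero]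
  have p6 : ch.head < ch.last := ch.strictMono (by simp [Fin.lt_def, c1])
  exact p6.not_ge (c3.trans (p5.trans c2))

theorem Ch.quot {S : Type} [CommRing S] [Algebra F S] {e : S →ₐ[F] F} {P : Ideal S} {d : ℕ}
    (h : Ch P (RingHom.ker e) d) :
    (d : ℕ∞) ≤ (RingHom.ker (Ideal.Quotient.liftₐ P e fun _ hx => h.le hx)).height := by
  refine (Ch.ht (Ideal.Quotient.mkₐ F P) (Ideal.Quotient.mkₐ_surjective F P) _ d).mpr ?_
  rw [Ideal.Quotient.liftₐ_comp]
  exact (Ideal.mk_ker (I := P)).symm ▸ h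

open TensorProduct in
theorem step0 {S : Type} [CommRing S] [Algebra F S] [Algebra.FiniteType F S] (e : S →ₐ[F] F)
    {N n M d : ℕ} (hn : 0 < n) (hM : N ≤ M * n) (Y : Matrix (Fin N) (Fin N) S)
    (hY : ∀ x y, e (Y x y) = 0) (hd : ((d + N * n : ℕ) : ℕ∞) ≤ (RingHom.ker e).height) :
    ∃ P : Ideal S, P.IsPrime ∧ (∀ x y, (Y ^ M) x y ∈ P) ∧ Ch P (RingHom.ker e) d := by
  classical
  obtain ⟨W, _, _, _, e', Z, w, h1, h2, h3, h4, h5⟩ := nilvar (F := F) N n M hn hM
  have := Algebra.FiniteType.isNoetherianRing F S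
  have := Algebra.FiniteType.isNoetherianRing S (S ⊗[F] W)
  let E := Algebra.TensorProduct.productMap e e'
  let f : Fin N × Fin N → S ⊗[F] W := fun q => Y q.1 q.2 ⊗ₜ 1 - 1 ⊗ₜ Z q.1 q.2
  obtain ⟨P, hP, p1, p2⟩ := cut E (Finset.univ.image f) (Finset.forall_mem_image.mpr fun q _ => by simp [f, E, hY, h1]) (d := d) (by
    refine le_trans ?_ ((add_le_add hd h5).trans (ht_tensor e e'))
    have : (Finset.univ.image f).card ≤ N * N := Finset.card_image_le.trans (by simp)
    norm_cast; omega)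
  let π := Ideal.Quotient.mkₐ F P
  let a := π.comp (Algebra.TensorProduct.includeLeft : S →ₐ[F] S ⊗[F] W)
  let b := π.comp (Algebra.TensorProduct.includeRight : W →ₐ[F] S ⊗[F] W)
  have q1 : ∀ x y, a (Y x y) = b (Z x y) := fun x y => by
    have := Ideal.Quotient.eq_zero_iff_mem.mpr (p1 (f (x, y)) (by simp))
    rwa [map_sub, sub_eq_zero] at this
  have q2 : ∀ t, b t ∈ a.range := fun t => by
    have : Algebra.adjoin F (Set.range fun q : Fin N × Fin N => Z q.1 q.2) ≤ a.range.comap b :=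
      Algebra.adjoin_le (by rintro _ ⟨q, rfl⟩; exact ⟨_, q1 _ _⟩)
    exact this (h3 ▸ Algebra.mem_top)
  have q3 : Function.Surjective a := fun t => by
    obtain ⟨t, rfl⟩ := Ideal.Quotient.mkₐ_surjective F P t
    change π t ∈ a.range
    induction t using TensorProduct.induction_on with
    | zero => simp
    | tmul x y =>
      rw [← mul_one x, ← one_mul y, ← Algebra.TensorProduct.tmul_mul_tmul, map_mul]
      exact mul_mem ⟨x, rfl⟩ (q2 y)
    | add x y hx hy => rw [map_add]; exact add_mem hx hy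
  let E' := Ideal.Quotient.liftₐ P E fun x hx => p2.le hx
  have q5 : E'.comp a = e := by ext; simp [E', a, π, E]
  have q6 := (Ch.ht a q3 E' d).mp p2.quot
  refine ⟨RingHom.ker a, RingHom.ker_isPrime _, fun x y => ?_, q5 ▸ q6⟩
  have q7 : a.mapMatrix Y = b.mapMatrix Z := by ext x y; exact q1 x y
  have q8 : a.mapMatrix (Y ^ M) = 0 := by rw [map_pow, q7, ← map_pow, h2, map_zero]
  exact congrFun (congrFun q8 x) y

theorem multi {S : Type} [CommRing S] [Algebra F S] [Algebra.FiniteType F S] (e : S →ₐ[F] F)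
    {N : ℕ} (n M : ℕ → ℕ) (Y : ℕ → Matrix (Fin N) (Fin N) S) (hY : ∀ k x y, e (Y k x y) = 0)
    (i : ℕ) (hn : ∀ k < i, 0 < n k ∧ N ≤ M k * n k) (d : ℕ) (P₀ : Ideal S) (h₀ : P₀.IsPrime)
    (hd : Ch P₀ (RingHom.ker e) (d + N * ∑ k ∈ Finset.range i, n k)) :
    ∃ P : Ideal S, P.IsPrime ∧ P₀ ≤ P ∧ (∀ k < i, ∀ x y, (Y k ^ M k) x y ∈ P) ∧
      Ch P (RingHom.ker e) d := by
  induction i generalizing d with
  | zero => exact ⟨P₀, h₀, le_rfl, by simp, by simpa using hd⟩
  | succ i ih =>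
    obtain ⟨P, hP, p0, p1, p2⟩ := ih (fun k hk => hn k (by omega)) (d + N * n i) (by
      rwa [Finset.sum_range_succ, mul_add, add_comm (N * _), ← add_assoc] at hd)
    let π := Ideal.Quotient.mkₐ F P
    have hπ := Ideal.Quotient.mkₐ_surjective F P
    let e' := Ideal.Quotient.liftₐ P e fun x hx => p2.le hx
    have q4 : e'.comp π = e := by ext; simp [e', π]
    obtain ⟨Q, hQ, q1, q2⟩ := step0 e' (hn i (by omega)).1 (hn i (by omega)).2 (π.mapMatrix (Y i))
      (fun x y => by simpa [e', π] using hY i x y) p2.quot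
    have q3 : P ≤ Q.comap π := fun a ha => by
      rw [Ideal.mem_comap, show π a = 0 from Ideal.Quotient.eq_zero_iff_mem.mpr ha]
      exact Q.zero_mem
    refine ⟨Q.comap π, inferInstance, p0.trans q3, fun k hk x y => ?_, ?_⟩
    · rcases Nat.lt_succ_iff_lt_or_eq.mp hk with h | rfl
      · exact q3 (p1 k h x y)
      · have := q1 x y
        rwa [← map_pow] at this
    · rw [← q4]; exact q2.comap π.toRingHom hπ

end Pool.Agent.MP_94218c_al

end

-- part MP_94218c_al.Det
section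

/-!
Determinants of finite rank perturbations of the identity.
-/

namespace Pool.Agent.MP_94218c_al

variable {A V : Type} [CommRing A] [AddCommGroup V] [Module A V]

/-- Finite rank operators. -/
def FR (f : Module.End A V) : Prop :=
  ∃ (κ : Type) (_ : Fintype κ) (α : V →ₗ[A] κ → A) (β : (κ → A) →ₗ[A] V), f = β ∘ₗ α

/-- `c` is the determinant of the finite rank perturbation `q` of the identity. -/
def IsDet (q : Module.End A V) (c : A) : Prop :=
  ∃ (κ : Type) (_ : Fintype κ) (α : V →ₗ[A] κ → A) (β : (κ → A) →ₗ[A] V),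
    q = 1 + β ∘ₗ α ∧ c = LinearMap.det (1 + α ∘ₗ β)

theorem det_comm {κ μ : Type} [Fintype κ] [Fintype μ] (α : (μ → A) →ₗ[A] κ → A)
    (β : (κ → A) →ₗ[A] μ → A) : LinearMap.det (1 + α ∘ₗ β) = LinearMap.det (1 + β ∘ₗ α) := by
  classical
  rw [← LinearMap.det_toMatrix', ← LinearMap.det_toMatrix', map_add, map_add,
    LinearMap.toMatrix'_comp, LinearMap.toMatrix'_comp, LinearMap.toMatrix'_one,
    LinearMap.toMatrix'_one, Matrix.det_one_add_mul_comm]

theorem cover [Module.Free A V] {κ κ' : Type} [Fintype κ] [Fintype κ'] (β : (κ → A) →ₗ[A] V)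
    (β' : (κ' → A) →ₗ[A] V) : ∃ (μ : Type) (_ : Fintype μ) (π : V →ₗ[A] μ → A)
      (ι : (μ → A) →ₗ[A] V), π ∘ₗ ι = 1 ∧ (ι ∘ₗ π) ∘ₗ β = β ∧ (ι ∘ₗ π) ∘ₗ β' = β' := by
  classical
  let b := Module.Free.chooseBasis A V
  let s := (Finset.univ.biUnion fun i => (b.repr (β (Pi.single i 1))).support) ∪
    Finset.univ.biUnion fun i => (b.repr (β' (Pi.single i 1))).support
  let π : V →ₗ[A] s → A := LinearMap.pi fun i => b.coord i
  let ι : (s → A) →ₗ[A] V := Fintype.linearCombination A fun i : s => b i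
  have h : ∀ v, (b.repr v).support ⊆ s → ι (π v) = v := fun v hv => by
    conv_rhs => rw [← b.linearCombination_repr v, Finsupp.linearCombination_apply,
      Finsupp.sum_of_support_subset _ hv _ (by simp), ← Finset.sum_coe_sort]
    simp [ι, π, Fintype.linearCombination_apply]
  refine ⟨s, inferInstance, π, ι, ?_, ?_, ?_⟩
  · refine (Pi.basisFun A s).ext fun i => funext fun j => ?_
    simp [ι, π, Finsupp.single_apply, Pi.single_apply, eq_comm]
  · refine (Pi.basisFun A κ).ext fun i => h _ fun j hj => ?_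
    exact Finset.mem_union_left _ (Finset.mem_biUnion.mpr ⟨i, Finset.mem_univ _, by simpa using hj⟩)
  · refine (Pi.basisFun A κ').ext fun i => h _ fun j hj => ?_
    exact Finset.mem_union_right _
      (Finset.mem_biUnion.mpr ⟨i, Finset.mem_univ _, by simpa using hj⟩)

theorem det_cover {κ μ : Type} [Fintype κ] [Fintype μ] {α : V →ₗ[A] κ → A}
    {β : (κ → A) →ₗ[A] V} {π : V →ₗ[A] μ → A} {ι : (μ → A) →ₗ[A] V} (h : π ∘ₗ ι = 1)
    (h' : (ι ∘ₗ π) ∘ₗ β = β) :
    LinearMap.det (1 + α ∘ₗ β) = LinearMap.det (π ∘ₗ (1 + β ∘ₗ α) ∘ₗ ι) := by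
  have h1 : α ∘ₗ β = (α ∘ₗ ι) ∘ₗ π ∘ₗ β := (congrArg (α ∘ₗ ·) h').symm
  rw [h1, det_comm, LinearMap.add_comp, LinearMap.comp_add, ← h]; rfl

theorem IsDet.unique [Module.Free A V] {q : Module.End A V} {c c' : A} (h : IsDet q c)
    (h' : IsDet q c') : c = c' := by
  obtain ⟨κ, _, α, β, h1, rfl⟩ := h
  obtain ⟨κ', _, α', β', h2, rfl⟩ := h'
  obtain ⟨μ, _, π, ι, h3, h4, h5⟩ := cover β β'
  rw [det_cover h3 h4, det_cover h3 h5, ← h1, ← h2]

theorem IsDet.mul [Module.Free A V] {q q' : Module.End A V} {c c' : A} (h : IsDet q c)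
    (h' : IsDet q' c') : IsDet (q * q') (c * c') := by
  obtain ⟨κ, _, α, β, rfl, rfl⟩ := h
  obtain ⟨κ', _, α', β', rfl, rfl⟩ := h'
  obtain ⟨μ, _, π, ι, h3, h4, h5⟩ := cover β β'
  have a3 : ∀ v, π (ι v) = v := LinearMap.congr_fun h3
  have a4 : ∀ v, ι (π (β v)) = β v := LinearMap.congr_fun h4
  have a5 : ∀ v, ι (π (β' v)) = β' v := LinearMap.congr_fun h5
  refine ⟨μ, inferInstance, π ∘ₗ ((1 + β ∘ₗ α) * (1 + β' ∘ₗ α') - 1), ι, ?_, ?_⟩
  · refine LinearMap.ext fun v => ?_
    simp only [Module.End.mul_apply, LinearMap.add_apply, LinearMap.comp_apply,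
      LinearMap.sub_apply, Module.End.one_apply, map_add, map_sub, a4, a5]
    abel
  · rw [det_cover h3 h4, det_cover h3 h5, ← map_mul]
    congr 1
    refine LinearMap.ext fun v => ?_
    simp only [Module.End.mul_apply, LinearMap.add_apply, LinearMap.comp_apply,
      LinearMap.sub_apply, Module.End.one_apply, map_add, map_sub, a3, a5]
    abel

theorem IsDet.conj {q u v : Module.End A V} {c : A} (h : IsDet q c) (h1 : u * v = 1)
    (h2 : v * u = 1) : IsDet (u * q * v) c := by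
  obtain ⟨κ, _, α, β, rfl, rfl⟩ := h
  refine ⟨κ, inferInstance, α ∘ₗ v, u ∘ₗ β, by rw [mul_add, add_mul, mul_one, h1]; rfl, ?_⟩
  change _ = LinearMap.det (1 + α ∘ₗ (v * u) ∘ₗ β)
  rw [h2]; rfl

theorem isDet_one : IsDet (1 : Module.End A V) 1 :=
  ⟨Unit, inferInstance, 0, 0, by simp, by simp⟩

theorem FR.isDet {f : Module.End A V} (h : FR f) (c : A) : ∃ s, IsDet (1 + c • f) (1 + c * s) := by
  classical
  obtain ⟨κ, _, α, β, rfl⟩ := h
  obtain ⟨s, hs⟩ : ∃ s, LinearMap.det (1 + (c • α) ∘ₗ β) = 1 + c * s := ⟨_, by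
    rw [LinearMap.smul_comp, ← LinearMap.det_toMatrix', map_add, map_smul,
      LinearMap.toMatrix'_one, Matrix.det_one_add_smul, add_assoc, pow_two, ← mul_assoc, ← add_mul,
      mul_comm]⟩
  exact ⟨s, κ, inferInstance, c • α, β, by rw [LinearMap.comp_smul], hs.symm⟩

theorem FR.mul_left {f : Module.End A V} (h : FR f) (g : Module.End A V) : FR (g * f) := by
  obtain ⟨κ, _, α, β, rfl⟩ := h
  exact ⟨κ, inferInstance, α, g ∘ₗ β, rfl⟩

theorem FR.mul_right {f : Module.End A V} (h : FR f) (g : Module.End A V) : FR (f * g) := by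
  obtain ⟨κ, _, α, β, rfl⟩ := h
  exact ⟨κ, inferInstance, α ∘ₗ g, β, rfl⟩

theorem FR.smul {f : Module.End A V} (h : FR f) (c : A) : FR (c • f) := by
  simpa using h.mul_left (c • 1)

theorem FR.neg {f : Module.End A V} (h : FR f) : FR (-f) := by
  simpa using h.mul_left (-1)

theorem FR.zero : FR (0 : Module.End A V) := ⟨Unit, inferInstance, 0, 0, by simp⟩

theorem FR.add [Module.Free A V] {f f' : Module.End A V} (h : FR f) (h' : FR f') :
    FR (f + f') := by
  obtain ⟨κ, _, α, β, rfl⟩ := h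
  obtain ⟨κ', _, α', β', rfl⟩ := h'
  obtain ⟨μ, _, π, ι, -, h4, h5⟩ := cover β β'
  refine ⟨μ, inferInstance, π ∘ₗ (β ∘ₗ α + β' ∘ₗ α'), ι, ?_⟩
  conv_lhs => rw [← h4, ← h5]
  rw [LinearMap.comp_add, LinearMap.comp_add]; rfl

theorem FR.sub [Module.Free A V] {f f' : Module.End A V} (h : FR f) (h' : FR f') :
    FR (f - f') := by
  rw [sub_eq_add_neg]; exact h.add h'.neg

theorem FR.exists_isDet {q : Module.End A V} (h : FR (q - 1)) : ∃ c, IsDet q c := by
  obtain ⟨s, hs⟩ := h.isDet 1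
  exact ⟨_, by simpa using hs⟩

theorem IsDet.fr {q : Module.End A V} {c : A} (h : IsDet q c) : FR (q - 1) := by
  obtain ⟨κ, _, α, β, rfl, -⟩ := h
  exact ⟨κ, inferInstance, α, β, add_sub_cancel_left _ _⟩

theorem IsDet.inv [Module.Free A V] {q q' : Module.End A V} {c : A} (h : IsDet q c)
    (h1 : q * q' = 1) : ∃ c', IsDet q' c' ∧ c * c' = 1 := by
  obtain ⟨c', hc⟩ := FR.exists_isDet (q := q') (by
    have := (h.fr.mul_right q').neg
    rwa [sub_mul, h1, one_mul, neg_sub] at this)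
  exact ⟨c', hc, (h.mul hc).unique (h1 ▸ isDet_one)⟩

end Pool.Agent.MP_94218c_al

end

-- part MP_94218c_al.Der
section

/-!
Derivations of function fields, and an isotropy bound.
-/

namespace Pool.Agent.MP_94218c_al

open Cardinal Matrix

open scoped IntermediateField.algebraAdjoinAdjoin in
theorem der_rank (F E : Type) [Field F] [PerfectField F] [Field E] [Algebra F E]
    [Algebra.EssFiniteType F E] : Algebra.trdeg F E ≤ Module.rank E (Derivation F E E) := by
  classical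
  obtain ⟨s, hs, H⟩ := exists_isTranscendenceBasis_and_isSeparable_of_perfectField F E
  let B := Algebra.adjoin F (Set.range ((↑) : s → E))
  let L := IntermediateField.adjoin F (Set.range ((↑) : s → E))
  have : Algebra.IsSeparable L E := by
    have h : ∀ t : Set E, t = s → Algebra.IsSeparable (IntermediateField.adjoin F t) E := by
      rintro _ rfl; exact H
    exact h _ Subtype.range_coe
  have : Algebra.FormallyEtale L E := .of_isSeparable _ _
  have : Algebra.FormallyEtale B L := .of_isLocalization (nonZeroDivisors B)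
  have : Algebra.FormallyEtale B E := .comp B L E
  let _ : Algebra (MvPolynomial s F) B := hs.1.aevalEquiv.toRingEquiv.toRingHom.toAlgebra
  let _ : Algebra (MvPolynomial s F) E :=
    ((algebraMap B E).comp (algebraMap (MvPolynomial s F) B)).toAlgebra
  have : IsScalarTower (MvPolynomial s F) B E := .of_algebraMap_eq fun _ => rfl
  have : IsScalarTower F (MvPolynomial s F) E := .of_algebraMap_eq fun x => by
    change _ = algebraMap B E (hs.1.aevalEquiv (algebraMap _ _ x))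
    rw [AlgEquiv.commutes]; rfl
  have : Algebra.FormallyEtale (MvPolynomial s F) B :=
    .of_equiv (A := MvPolynomial s F) (AlgEquiv.ofRingEquiv (f := hs.1.aevalEquiv.toRingEquiv)
      fun _ => rfl)
  have : Algebra.FormallyEtale (MvPolynomial s F) E := .comp _ B E
  let b := ((KaehlerDifferential.mvPolynomialBasis F s).baseChange E).map
    (KaehlerDifferential.tensorKaehlerEquivOfFormallyEtale F (MvPolynomial s F) E)
  rw [← hs.cardinalMk_eq_trdeg, ← (KaehlerDifferential.linearMapEquivDerivation F E).rank_eq,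
    ← b.dualBasis.mk_eq_rank'']

variable {E : Type} [Field E] {ι : Type} [Fintype ι] [DecidableEq ι]

/-- Conjugation. -/
def ad (D : (Matrix ι ι E)ˣ) (a : Matrix ι ι E) : Matrix ι ι E := D * a * (D⁻¹ : (Matrix ι ι E)ˣ)

/-- The variation of a product of conjugates. -/
def av : (n : ℕ) → (Fin n → (Matrix ι ι E)ˣ) → (Fin n → Matrix ι ι E) → Matrix ι ι E
  | 0, _, _ => 0
  | n + 1, D, η => η 0 - ad (D 0) (η 0) + ad (D 0) (av n (fun i => D i.succ) fun i => η i.succ)

/-- The bilinear form. -/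
def lam : (n : ℕ) → (Fin n → (Matrix ι ι E)ˣ) → (Fin n → Matrix ι ι E) →
    (Fin n → Matrix ι ι E) → E
  | 0, _, _, _ => 0
  | n + 1, D, ξ, η => -trace (ξ 0 * (η 0 - ad (D 0) (η 0))) +
      lam n (fun i => D i.succ) (fun i => ξ i.succ) (fun i => η i.succ) -
      trace ((ξ 0 - ad (D 0) (ξ 0)) * ad (D 0) (av n (fun i => D i.succ) fun i => η i.succ))

theorem av_lin (c : E) : ∀ (n : ℕ) (D : Fin n → (Matrix ι ι E)ˣ) (η η' : Fin n → Matrix ι ι E),
    av n D (η + c • η') = av n D η + c • av n D η'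
  | 0, _, _, _ => by simp [av]
  | n + 1, D, η, η' => by
    have := av_lin c n (fun i => D i.succ) (fun i => η i.succ) fun i => η' i.succ
    simp only [av, Pi.add_apply, Pi.smul_apply]
    erw [this]
    simp only [ad, mul_add, add_mul, Matrix.mul_smul, Matrix.smul_mul, smul_add, smul_sub]
    abel

theorem lam_lin (c : E) : ∀ (n : ℕ) (D : Fin n → (Matrix ι ι E)ˣ)
    (ξ ξ' : Fin n → Matrix ι ι E), (∀ η, lam n D (ξ + c • ξ') η = lam n D ξ η + c * lam n D ξ' η) ∧
      ∀ η, lam n D η (ξ + c • ξ') = lam n D η ξ + c * lam n D η ξ'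
  | 0, _, _, _ => by simp [lam]
  | n + 1, D, ξ, ξ' => by
    have h := lam_lin c n (fun i => D i.succ) (fun i => ξ i.succ) fun i => ξ' i.succ
    have h' := av_lin c n (fun i => D i.succ) (fun i => ξ i.succ) fun i => ξ' i.succ
    constructor
    · intro η
      simp only [lam, Pi.add_apply, Pi.smul_apply]
      erw [h.1]
      simp only [ad, mul_add, add_mul, sub_mul, mul_sub, Matrix.mul_smul, Matrix.smul_mul,
        trace_add, trace_sub, trace_smul, smul_eq_mul]
      ring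
    · intro η
      simp only [lam, Pi.add_apply, Pi.smul_apply]
      erw [h.2, h']
      simp only [ad, mul_add, add_mul, sub_mul, mul_sub, Matrix.mul_smul, Matrix.smul_mul,
        trace_add, trace_sub, trace_smul, smul_eq_mul]
      ring

theorem lam_ker : ∀ (n : ℕ) (D : Fin n → (Matrix ι ι E)ˣ) (η : Fin n → Matrix ι ι E),
    (∀ ξ, lam n D ξ η = 0) → av n D η = 0 ∧ ∀ j, ad (D j) (η j) = η j
  | 0, _, _, _ => ⟨rfl, fun j => j.elim0⟩
  | n + 1, D, η, h => by
    have h1 := lam_ker n (fun i => D i.succ) (fun i => η i.succ) fun ξ => by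
      simpa [lam, ad] using h (Fin.cons 0 ξ)
    have h2 : ∀ ξ, lam n (fun i => D i.succ) ξ (fun i => η i.succ) = 0 := fun ξ => by
      simpa [lam, ad] using h (Fin.cons 0 ξ)
    have h3 : η 0 - ad (D 0) (η 0) = 0 := by
      ext x y
      have := h (Fin.cons (single y x 1) 0)
      simp only [lam, h1.1, h2, Fin.cons_zero] at this
      generalize η 0 - ad (D 0) (η 0) = a at this ⊢
      simpa [ad, trace_single_mul] using this
    refine ⟨by rw [av, h1.1, h3]; simp [ad], Fin.cases (sub_eq_zero.mp h3).symm h1.2⟩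

open Module in
theorem isotropic {V U : Type} [AddCommGroup V] [Module E V] [AddCommGroup U] [Module E U]
    [FiniteDimensional E U] (B : U →ₗ[E] U →ₗ[E] E) (f : V →ₗ[E] U) (hf : Function.Injective f)
    (h : ∀ x y, B (f x) (f y) = 0) :
    2 * finrank E V ≤ finrank E U + finrank E (LinearMap.ker B.flip) := by
  have := FiniteDimensional.of_injective f hf
  let g : V →ₗ[E] Dual E U := B.flip.comp f
  have h1 : LinearMap.range g ≤ (LinearMap.range f).dualAnnihilator := by
    rintro _ ⟨y, rfl⟩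
    rw [Submodule.mem_dualAnnihilator]
    rintro _ ⟨x, rfl⟩
    exact h x y
  have h2 := Submodule.finrank_mono h1
  have h3 := Subspace.finrank_add_finrank_dualAnnihilator_eq (LinearMap.range f)
  have h4 := LinearMap.finrank_range_add_finrank_ker g
  have h5 : finrank E (LinearMap.ker g) ≤ finrank E (LinearMap.ker B.flip) :=
    LinearMap.finrank_le_finrank_of_injective
      (f := f.restrict (p := LinearMap.ker g) (q := LinearMap.ker B.flip) fun x hx => hx)
      fun x y e => Subtype.ext (hf (congrArg Subtype.val e))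
  rw [LinearMap.finrank_range_of_inj hf] at h3
  omega

open Module in
theorem exists_lam_ne {V κ : Type} [AddCommGroup V] [Module E V] [Fintype κ] {n : ℕ}
    (D : Fin n → (Matrix ι ι E)ˣ) (P : Fin n → Matrix κ ι E) (Q : Fin n → Matrix ι κ E)
    (hD : ∀ j, (D j - 1 : Matrix ι ι E) * (D j - 1) = 0) [DecidableEq κ]
    (hP : ∀ j, P j * (D j - 1 : Matrix ι ι E) * Q j = 1)
    (f : V →ₗ[E] Fin n → Matrix ι ι E) (hf : Function.Injective f)
    (hV : 2 * n * Fintype.card ι ^ 2 < 2 * finrank E V + n * Fintype.card κ ^ 2) :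
    ∃ x y, lam n D (f x) (f y) ≠ 0 := by
  by_contra! h
  have a1 : ∀ ξ ξ' η, lam n D (ξ + ξ') η = lam n D ξ η + lam n D ξ' η := fun ξ ξ' η => by
    simpa using (lam_lin 1 n D ξ ξ').1 η
  have a2 : ∀ η ξ ξ', lam n D η (ξ + ξ') = lam n D η ξ + lam n D η ξ' := fun η ξ ξ' => by
    simpa using (lam_lin 1 n D ξ ξ').2 η
  have a3 : ∀ η, lam n D 0 η = 0 := fun η => by simpa using a1 0 0 η
  have a4 : ∀ η, lam n D η 0 = 0 := fun η => by simpa using a2 η 0 0
  let B : (Fin n → Matrix ι ι E) →ₗ[E] (Fin n → Matrix ι ι E) →ₗ[E] E :=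
    LinearMap.mk₂ E (lam n D) a1 (fun c ξ η => by simpa [a3] using (lam_lin c n D 0 ξ).1 η) a2
      fun c η ξ => by simpa [a4] using (lam_lin c n D 0 ξ).2 η
  have h1 := isotropic B f hf h
  let g : (Fin n → Matrix ι ι E) →ₗ[E] Fin n → Matrix κ κ E :=
    { toFun := fun η j => P j * (D j - 1 : Matrix ι ι E) * η j * (D j - 1 : Matrix ι ι E) * Q j
      map_add' := fun _ _ => by ext1; simp [Matrix.mul_add, Matrix.add_mul]
      map_smul' := fun _ _ => by ext1; simp }
  have h2 : Function.Surjective g := fun Y => ⟨fun j => Q j * Y j * P j, funext fun j => by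
    have := congrArg₂ (fun a b => a * Y j * b) (hP j) (hP j)
    simp only [Matrix.mul_assoc, Matrix.one_mul, Matrix.mul_one] at this
    simpa only [g, LinearMap.coe_mk, AddHom.coe_mk, Matrix.mul_assoc] using this⟩
  have h3 : LinearMap.ker B.flip ≤ LinearMap.ker g := fun η hη => by
    have h4 := (lam_ker n D η fun ξ => LinearMap.congr_fun hη ξ).2
    refine funext fun j => ?_
    have h5 : η j * (D j - 1 : Matrix ι ι E) = (D j - 1 : Matrix ι ι E) * η j := by
      rw [mul_sub, sub_mul, mul_one, one_mul]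
      congr 1
      conv_lhs => rw [← h4 j, ad, Units.inv_mul_cancel_right]
    change P j * (D j - 1 : Matrix ι ι E) * η j * (D j - 1 : Matrix ι ι E) * Q j = 0
    rw [Matrix.mul_assoc _ (η j), h5, Matrix.mul_assoc (P j), ← Matrix.mul_assoc _ _ (η j), hD]
    simp
  have h4 := Submodule.finrank_mono h3
  have h5 := LinearMap.finrank_range_add_finrank_ker g
  rw [LinearMap.range_eq_top.mpr h2, finrank_top] at h5
  simp only [finrank_pi_fintype, finrank_matrix, finrank_self, mul_one, Finset.sum_const,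
    Finset.card_univ, Fintype.card_fin, smul_eq_mul] at h1 h5
  nlinarith

end Pool.Agent.MP_94218c_al

end

-- part MP_94218c_al.Tate
section

/-!
The determinant central extension of a loop group.
-/

namespace Pool.Agent.MP_94218c_al

open Matrix

/-- Toeplitz operator data. -/
structure Setup (E A R ι V : Type) [Field E] [CommRing A] [CommRing R] [Algebra A R] [Fintype ι]
    [DecidableEq ι] [AddCommGroup V] [Module A V] where
  Φ : Matrix ι ι R →ₐ[A] Module.End A V
  κ : Matrix ι ι E →+* Matrix ι ι R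
  j : E →+* A
  P : Module.End A V
  Q : Module.End A V
  t : R
  t' : R
  ε : A
  nil : IsNilpotent ε
  tt : t * t' = 1
  PP : P * P = P
  QP : Q * P = Q
  PQ : P * Q = Q
  QQ : Q * Q = Q
  cP : ∀ c, Φ (κ c) * P = P * Φ (κ c)
  cQ : ∀ c, Φ (κ c) * Q = Q * Φ (κ c)
  sh : Φ (t • 1) * P = (P - Q) * Φ (t • 1)
  fr : ∀ x, FR (Φ x * P - P * Φ x)
  det0 : ∀ (u : A) c, ∃ s, IsDet (1 + u • (Q * Φ (κ c))) (1 + u * j (trace c) + u ^ 2 * s)

namespace Setup

variable {E A R ι V : Type} [Field E] [CommRing A] [CommRing R] [Algebra A R] [Fintype ι]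
  [DecidableEq ι] [AddCommGroup V] [Module A V] (S : Setup E A R ι V)

/-- The Toeplitz operator. -/
noncomputable def T (x : Matrix ι ι R) : Module.End A V := S.P * S.Φ x * S.P + (1 - S.P)

theorem PP' (z : Module.End A V) : S.P * (S.P * z) = S.P * z := by rw [← mul_assoc, S.PP]

theorem T_mul (x y : Matrix ι ι R) :
    S.T x * S.T y = S.T (x * y) - S.P * S.Φ x * (1 - S.P) * ((1 - S.P) * S.Φ y * S.P) := by
  simp only [T, map_mul, mul_add, add_mul, mul_sub, sub_mul, mul_assoc, mul_one, one_mul, S.PP,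
    S.PP']
  abel

theorem T_one : S.T 1 = 1 := by simp [T, S.PP]

theorem left0 (c : Matrix ι ι E) : S.P * S.Φ (S.κ c) * (1 - S.P) = 0 := by
  rw [← S.cP, mul_assoc, mul_sub, S.PP, mul_one, sub_self, mul_zero]

theorem right0 (c : Matrix ι ι E) : (1 - S.P) * S.Φ (S.κ c) * S.P = 0 := by
  rw [mul_assoc, S.cP, ← mul_assoc, sub_mul, S.PP, one_mul, sub_self, zero_mul]

theorem QT (c : Matrix ι ι E) : S.Q * S.T (S.κ c) = S.Q * S.Φ (S.κ c) := by
  rw [T, mul_add, mul_sub, mul_one, S.QP, sub_self, add_zero, mul_assoc, S.cP, S.PP', ← mul_assoc,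
    S.QP]

theorem frl (x : Matrix ι ι R) : FR (S.P * S.Φ x * (1 - S.P)) := by
  have := (S.fr x).mul_left (-S.P)
  rwa [show -S.P * (S.Φ x * S.P - S.P * S.Φ x) = S.P * S.Φ x * (1 - S.P) by
    simp only [mul_sub, neg_mul, mul_assoc, S.PP', mul_one]; abel] at this

theorem frQ : FR S.Q := by
  obtain ⟨s, hs⟩ := S.det0 1 1
  simpa using hs.fr

theorem inv_one_add (z : Module.End A V) : ∃ u, (1 + S.ε • z) * u = 1 ∧ u * (1 + S.ε • z) = 1 := by
  obtain ⟨m, hm⟩ := S.nil
  obtain ⟨u, hu⟩ := IsNilpotent.isUnit_one_add (r := S.ε • z) ⟨m, by rw [smul_pow, hm, zero_smul]⟩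
  exact ⟨↑u⁻¹, by rw [← hu, u.mul_inv], by rw [← hu, u.inv_mul]⟩

theorem T_unit (y : Matrix ι ι R) (X : (Matrix ι ι E)ˣ) : ∃ v w,
    S.T ((1 + S.ε • y) * S.κ X) * v = 1 ∧ v * S.T ((1 + S.ε • y) * S.κ X) = 1 ∧
      v = S.T (S.κ (X⁻¹ : (Matrix ι ι E)ˣ)) + S.ε • w := by
  obtain ⟨u, h1, h2⟩ := S.inv_one_add (S.P * S.Φ y * S.P)
  have h3 : S.T ((1 + S.ε • y) * S.κ X) = (1 + S.ε • (S.P * S.Φ y * S.P)) * S.T (S.κ X) := by
    have : S.T (1 + S.ε • y) = 1 + S.ε • (S.P * S.Φ y * S.P) := by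
      simp only [T, map_add, map_smul, map_one, mul_add, add_mul, mul_one, S.PP, mul_smul_comm,
        smul_mul_assoc]
      abel
    rw [← this, T_mul, right0, mul_zero, sub_zero]
  have h4 : ∀ X Y : (Matrix ι ι E)ˣ, X * Y = 1 → S.T (S.κ X) * S.T (S.κ Y) = 1 := fun X Y h => by
    rw [T_mul, right0, mul_zero, sub_zero, ← map_mul, ← Units.val_mul, h, Units.val_one, map_one,
      T_one]
  refine ⟨S.T (S.κ (X⁻¹ : (Matrix ι ι E)ˣ)) * u,
    -(S.T (S.κ (X⁻¹ : (Matrix ι ι E)ˣ)) * (S.P * S.Φ y * S.P * u)), ?_, ?_, ?_⟩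
  · rw [h3, mul_assoc, ← mul_assoc (S.T _), h4 _ _ (mul_inv_cancel X), one_mul, h1]
  · rw [h3, mul_assoc, ← mul_assoc u, h2, one_mul, h4 _ _ (inv_mul_cancel X)]
  · rw [add_mul, one_mul, smul_mul_assoc, ← eq_sub_iff_add_eq] at h1
    conv_lhs => rw [h1]
    rw [mul_sub, mul_one, mul_smul_comm, smul_neg, sub_eq_add_neg]

/-- The first order term. -/
noncomputable def fo (a b : Matrix ι ι E) : Matrix ι ι R := S.t' • S.κ a + S.t • S.κ b

theorem tt1 : S.Φ (S.t • 1) * S.Φ (S.t' • 1) = 1 := by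
  rw [← map_mul, smul_mul_smul_comm, S.tt, one_mul, one_smul, map_one]

theorem tt2 : S.Φ (S.t' • 1) * S.Φ (S.t • 1) = 1 := by
  rw [← map_mul, smul_mul_smul_comm, mul_comm, S.tt, one_mul, one_smul, map_one]

theorem sh' : S.P * S.Φ (S.t' • 1) = S.Φ (S.t' • 1) * (S.P - S.Q) := by
  rw [← mul_one (_ * (S.P - S.Q)), ← S.tt1, mul_assoc, ← mul_assoc (S.P - S.Q), ← S.sh,
    ← mul_assoc, ← mul_assoc, S.tt2, one_mul]

theorem left1 (a b X : Matrix ι ι E) (x : Matrix ι ι R) :
    S.P * S.Φ ((1 + S.ε • (S.fo a b + S.ε • x)) * S.κ X) * (1 - S.P) =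
      S.ε • (S.Q * S.Φ (S.t • S.κ (b * X)) + S.ε • (S.P * S.Φ (x * S.κ X) * (1 - S.P))) := by
  have h0 : ∀ (r : R) c, S.Φ (r • S.κ c) * (1 - S.P) = S.Φ (r • 1) * (1 - S.P) * S.Φ (S.κ c) := by
    intro r c
    rw [mul_assoc, sub_mul, ← S.cP, one_mul, ← mul_one_sub, ← mul_assoc, ← map_mul, smul_one_mul]
  have h1 : S.P * S.Φ (S.t' • S.κ (a * X)) * (1 - S.P) = 0 := by
    rw [mul_assoc, h0, ← mul_assoc, ← mul_assoc, S.sh', mul_assoc _ (S.P - S.Q)]
    simp [mul_sub, sub_mul, S.PP, S.QP]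
  have h2 : S.P * S.Φ (S.t • S.κ (b * X)) * (1 - S.P) = S.Q * S.Φ (S.t • S.κ (b * X)) := by
    rw [mul_assoc, h0, mul_one_sub, S.sh, ← smul_one_mul S.t (S.κ _), map_mul S.Φ, ← mul_assoc,
      ← mul_assoc, mul_sub, ← mul_assoc, mul_sub, S.PP, S.PQ, ← sub_mul, sub_sub_cancel]
  have h3 : (1 + S.ε • (S.fo a b + S.ε • x)) * S.κ X = S.κ X + S.ε • (S.t' • S.κ (a * X) +
      S.t • S.κ (b * X) + S.ε • (x * S.κ X)) := by
    simp only [fo, add_mul, smul_mul_assoc, one_mul, map_mul]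
  rw [h3]
  simp only [map_add, map_smul, mul_add, add_mul, mul_smul_comm, smul_mul_assoc, S.left0, h1, h2,
    zero_add]

theorem right1 (a b X : Matrix ι ι E) (x : Matrix ι ι R) :
    (1 - S.P) * S.Φ ((1 + S.ε • (S.fo a b + S.ε • x)) * S.κ X) * S.P =
      S.ε • (S.Φ (S.t' • S.κ (a * X)) * S.Q + S.ε • ((1 - S.P) * S.Φ (x * S.κ X) * S.P)) := by
  have h0 : ∀ (r : R) c, (1 - S.P) * S.Φ (r • S.κ c) = S.Φ (S.κ c) * ((1 - S.P) * S.Φ (r • 1)) := by
    intro r c
    rw [← mul_assoc, mul_sub, S.cP, mul_one, ← one_sub_mul, mul_assoc, ← map_mul, mul_smul_one]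
  have h1 : (1 - S.P) * S.Φ (S.t • S.κ (b * X)) * S.P = 0 := by
    rw [h0, mul_assoc, mul_assoc, S.sh, ← mul_assoc (1 - S.P)]
    simp [mul_sub, sub_mul, S.PP, S.PQ]
  have h2 : (1 - S.P) * S.Φ (S.t' • S.κ (a * X)) * S.P = S.Φ (S.t' • S.κ (a * X)) * S.Q := by
    rw [h0, one_sub_mul, S.sh', ← mul_smul_one S.t' (S.κ _), map_mul S.Φ, mul_assoc, mul_assoc,
      sub_mul, mul_assoc, sub_mul, S.PP, S.QP, ← mul_sub, sub_sub_cancel]
  have h3 : (1 + S.ε • (S.fo a b + S.ε • x)) * S.κ X = S.κ X + S.ε • (S.t' • S.κ (a * X) +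
      S.t • S.κ (b * X) + S.ε • (x * S.κ X)) := by
    simp only [fo, add_mul, smul_mul_assoc, one_mul, map_mul]
  rw [h3]
  simp only [map_add, map_smul, mul_add, add_mul, mul_smul_comm, smul_mul_assoc, S.right0, h1, h2,
    zero_add, add_zero]

/-- Determinant known modulo the cube of `ε`. -/
def D3 (u : Module.End A V) (l : E) : Prop := ∃ s, IsDet u (1 + S.ε ^ 2 * S.j l + S.ε ^ 3 * s)

variable [Module.Free A V]

theorem D3.mul {S : Setup E A R ι V} {u u' : Module.End A V} {l l' : E} (h : S.D3 u l)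
    (h' : S.D3 u' l') : S.D3 (u * u') (l + l') := by
  obtain ⟨s, h⟩ := h
  obtain ⟨s', h'⟩ := h'
  refine ⟨s + s' + S.ε * (S.j l + S.ε * s) * (S.j l' + S.ε * s'), ?_⟩
  rw [show 1 + S.ε ^ 2 * S.j (l + l') + S.ε ^ 3 * (s + s' + S.ε * (S.j l + S.ε * s) *
    (S.j l' + S.ε * s')) = (1 + S.ε ^ 2 * S.j l + S.ε ^ 3 * s) *
      (1 + S.ε ^ 2 * S.j l' + S.ε ^ 3 * s') by rw [map_add]; ring]
  exact h.mul h'

theorem D3.inv {S : Setup E A R ι V} {u u' : Module.End A V} {l : E} (h : S.D3 u l)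
    (h' : u * u' = 1) : S.D3 u' (-l) := by
  obtain ⟨s, h⟩ := h
  obtain ⟨c, h1, h2⟩ := h.inv h'
  refine ⟨-s + S.ε * (S.j l + S.ε * s) ^ 2 * c, ?_⟩
  rwa [show 1 + S.ε ^ 2 * S.j (-l) + S.ε ^ 3 * (-s + S.ε * (S.j l + S.ε * s) ^ 2 * c) = c by
    rw [map_neg]; linear_combination (S.ε ^ 2 * S.j l + S.ε ^ 3 * s - 1) * h2]

theorem d3 (c : Matrix ι ι E) {g : Module.End A V} (hg : FR g) :
    S.D3 (1 + S.ε ^ 2 • (S.Q * S.Φ (S.κ c)) + S.ε ^ 3 • g) (trace c) := by
  obtain ⟨u, h1, -⟩ := S.inv_one_add (S.ε • (S.Q * S.Φ (S.κ c)))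
  rw [smul_smul, ← pow_two] at h1
  obtain ⟨s, hs⟩ := S.det0 (S.ε ^ 2) c
  obtain ⟨s', hs'⟩ := (hg.mul_left u).isDet (S.ε ^ 3)
  have := D3.mul (S := S) (l := trace c) (l' := 0) ⟨S.ε * s, by
    rwa [show S.ε ^ 3 * (S.ε * s) = (S.ε ^ 2) ^ 2 * s by ring]⟩ ⟨s', by simpa using hs'⟩
  rwa [mul_add, mul_one, mul_smul_comm, ← mul_assoc, h1, one_mul, add_zero] at this

/-- Second order bookkeeping. -/
def Good (q : Module.End A V) (x : Matrix ι ι R) (X : (Matrix ι ι E)ˣ) (a b : Matrix ι ι E)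
    (l : E) : Prop :=
  (∃ y, x = (1 + S.ε • (S.fo a b + S.ε • y)) * S.κ X) ∧ ∃ u, q = u * S.T x ∧ S.D3 u l

theorem Good.mul {S : Setup E A R ι V} {q q' : Module.End A V} {x x' : Matrix ι ι R}
    {X X' : (Matrix ι ι E)ˣ} {a b a' b' : Matrix ι ι E} {l l' : E} (h : S.Good q x X a b l)
    (h' : S.Good q' x' X' a' b' l') :
    S.Good (q * q') (x * x') (X * X') (a + ad X a') (b + ad X b') (l + l' - trace (b * ad X a')) := by
  obtain ⟨⟨y, hx⟩, u, rfl, hu⟩ := h
  obtain ⟨⟨y', hx'⟩, u', rfl, hu'⟩ := h'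
  have k1 : ∀ z, S.κ (X⁻¹ : (Matrix ι ι E)ˣ) * (S.κ X * z) = z := fun z => by
    rw [← mul_assoc, ← map_mul, X.inv_mul, map_one, one_mul]
  obtain ⟨z, hz⟩ : ∃ z, x * x' = (1 + S.ε • (S.fo (a + ad X a') (b + ad X b') + S.ε • z)) *
      S.κ (X * X' : (Matrix ι ι E)ˣ) := by
    refine ⟨y + S.κ X * y' * S.κ (X⁻¹ : (Matrix ι ι E)ˣ) + (S.fo a b + S.ε • y) *
      (S.κ X * (S.fo a' b' + S.ε • y') * S.κ (X⁻¹ : (Matrix ι ι E)ˣ)), ?_⟩
    rw [hx, hx', show S.fo (a + ad X a') (b + ad X b') =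
      S.fo a b + S.κ X * S.fo a' b' * S.κ (X⁻¹ : (Matrix ι ι E)ˣ) by
        simp only [fo, ad, map_mul, map_add, mul_add, add_mul, mul_smul_comm, smul_mul_assoc,
          smul_add]
        abel]
    simp only [Units.val_mul, map_mul, mul_add, add_mul, mul_smul_comm,
      smul_mul_assoc, mul_assoc, one_mul, k1, smul_add]
    abel
  obtain ⟨v, -, v1, v2, -⟩ := S.T_unit (S.fo a b + S.ε • y) X
  obtain ⟨w, w', w1, w2, w3⟩ := S.T_unit (S.fo (a + ad X a') (b + ad X b') + S.ε • z) (X * X')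
  rw [← hx] at v1 v2
  rw [← hz] at w1 w2
  refine ⟨⟨z, hz⟩, u * (S.T x * u' * v) * (S.T x * S.T x' * w), ?_, ?_⟩
  · simp only [mul_assoc, w2, mul_one]
    rw [← mul_assoc v, v2, one_mul]
  have k2 : S.D3 (S.T x * u' * v) l' := hu'.imp fun s hs => hs.conj v1 v2
  have k3 : S.Q * S.Φ (S.t • S.κ (b * X)) * (S.Φ (S.t' • S.κ (a' * X')) * S.Q) *
      S.T (S.κ ((X * X')⁻¹ : (Matrix ι ι E)ˣ)) = S.Q * S.Φ (S.κ (b * ad X a')) := by
    rw [mul_assoc S.Q, ← mul_assoc (S.Φ _), ← map_mul, smul_mul_smul_comm, S.tt, one_smul,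
      ← map_mul, mul_assoc, mul_assoc, mul_assoc, S.QT, ← mul_assoc (S.Φ _), S.cQ, ← mul_assoc,
      ← mul_assoc, S.QQ, mul_assoc, ← map_mul, ← map_mul]
    simp [ad, mul_assoc]
  have k4 : S.D3 (S.T x * S.T x' * w) (-trace (b * ad X a')) := by
    have k5 := S.d3 (-(b * ad X a')) (g := -(S.Q * S.Φ (S.t • S.κ (b * X)) *
      (S.Φ (S.t' • S.κ (a' * X')) * S.Q) * w' + S.Q * S.Φ (S.t • S.κ (b * X)) *
      ((1 - S.P) * S.Φ (y' * S.κ X') * S.P) * w + S.P * S.Φ (y * S.κ X) * (1 - S.P) *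
      (S.Φ (S.t' • S.κ (a' * X')) * S.Q + S.ε • ((1 - S.P) * S.Φ (y' * S.κ X') * S.P)) * w))
      (((((S.frQ.mul_right _).mul_right _).mul_right _).add
        (((S.frQ.mul_right _).mul_right _).mul_right _)).add
        (((S.frl _).mul_right _).mul_right _)).neg
    rw [trace_neg, map_neg, map_neg, mul_neg, ← k3, ← sub_eq_iff_eq_add.mpr w3] at k5
    rw [T_mul, sub_mul, w1]
    conv_lhs => rw [hx, hx', left1, right1]
    refine (congrArg (S.D3 · _) ?_).mp k5
    generalize S.Q * S.Φ (S.t • S.κ (b * X)) = B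
    generalize S.Φ (S.t' • S.κ (a' * X')) * S.Q = C
    generalize (1 - S.P) * S.Φ (y' * S.κ X') * S.P = G
    generalize S.P * S.Φ (y * S.κ X) * (1 - S.P) = H
    simp only [mul_add, add_mul, mul_sub, mul_smul_comm, smul_mul_assoc, mul_assoc]
    module
  rw [sub_eq_add_neg]
  exact (hu.mul k2).mul k4

end Setup

end Pool.Agent.MP_94218c_al

end

-- part MP_94218c_al.Cert
section

/-!
The determinant certificate, and the Laurent polynomial model.
-/

namespace Pool.Agent.MP_94218c_al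

open Matrix

/-- The relations of the universal central extension in which the generators have order `p`. -/
def NN {n : ℕ} (p : ℕ) (K : Subgroup (FreeGroup (Fin n))) : Subgroup (FreeGroup (Fin n)) :=
  ⁅(⊤ : Subgroup (FreeGroup (Fin n))), K⁆ ⊔
    Subgroup.normalClosure (Set.range fun j => FreeGroup.of j ^ p)

namespace Setup

variable {E A R ι V : Type} [Field E] [CommRing A] [CommRing R] [Algebra A R] [Fintype ι]
  [DecidableEq ι] [AddCommGroup V] [Module A V] (S : Setup E A R ι V) [Module.Free A V]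

omit [Module.Free A V] in
theorem Good.cast {S : Setup E A R ι V} {q q' : Module.End A V} {x x' : Matrix ι ι R}
    {X X' : (Matrix ι ι E)ˣ} {a b a' b' : Matrix ι ι E} {l l' : E} (h : S.Good q x X a b l)
    (h1 : q = q') (h2 : x = x') (h3 : X = X') (h4 : a = a') (h5 : b = b') (h6 : l = l') :
    S.Good q' x' X' a' b' l' := by
  subst h1 h2 h3 h4 h5 h6; exact h

omit [Module.Free A V] in
theorem good_T {x y : Matrix ι ι R} {X : (Matrix ι ι E)ˣ} {a b : Matrix ι ι E}
    (h : x = (1 + S.ε • (S.fo a b + S.ε • y)) * S.κ X) : S.Good (S.T x) x X a b 0 :=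
  ⟨⟨y, h⟩, 1, (one_mul _).symm, 0, by simpa using isDet_one⟩

omit [Module.Free A V] in
theorem T_const (X Y : Matrix ι ι E) : S.T (S.κ (X * Y)) = S.T (S.κ X) * S.T (S.κ Y) := by
  rw [T_mul, right0, mul_zero, sub_zero, map_mul]

theorem good_conj {p : ℕ} {k k' y : Matrix ι ι R} {D : (Matrix ι ι E)ˣ} {η ξ : Matrix ι ι E}
    (hk : k = 1 + S.ε • (S.fo η ξ + S.ε • y)) (hk' : k * k' = 1) (hD : D ^ p = 1) :
    ∃ θ : (Module.End A V)ˣ, θ ^ p = 1 ∧ S.Good θ (k * S.κ D * k') D (η - ad D η) (ξ - ad D ξ)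
      (-trace (ξ * (η - ad D η))) := by
  have e1 : k = (1 + S.ε • (S.fo η ξ + S.ε • y)) * S.κ (1 : (Matrix ι ι E)ˣ) := by simpa using hk
  have e2 : k' = (1 + S.ε • (S.fo (-η) (-ξ) + S.ε • (-y + (S.fo η ξ + S.ε • y) *
      (S.fo η ξ + S.ε • y) * k'))) * S.κ (1 : (Matrix ι ι E)ˣ) := by
    have h1 : S.fo (-η) (-ξ) = -S.fo η ξ := by simp [fo, add_comm]
    have h2 : k' = 1 - S.ε • ((S.fo η ξ + S.ε • y) * k') := by
      rw [← hk', hk, add_mul, one_mul, smul_mul_assoc, add_sub_cancel_right]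
    rw [Units.val_one, map_one, mul_one, h1]
    conv_lhs => rw [h2, h2]
    generalize S.fo η ξ = f
    simp only [mul_add, add_mul, mul_sub, mul_smul_comm, smul_mul_assoc, mul_assoc, mul_one]
    module
  obtain ⟨v, -, v1, v2, -⟩ := S.T_unit (S.fo η ξ + S.ε • y) 1
  obtain ⟨w, -, w1, -⟩ := S.T_unit (S.fo (-η) (-ξ) + S.ε • (-y + (S.fo η ξ + S.ε • y) *
      (S.fo η ξ + S.ε • y) * k')) 1
  rw [← e1] at v1 v2
  rw [← e2] at w1
  obtain ⟨-, u, u1, u2⟩ := (S.good_T e1).mul (S.good_T e2)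
  rw [hk', T_one, mul_one] at u1
  have g1 : S.Good (w * v) 1 1 0 0 (-trace (ξ * η)) :=
    ⟨⟨0, by simp [fo]⟩, w * v, by rw [T_one, mul_one], by
      simpa [ad] using u2.inv (u' := w * v) (by
        rw [← u1, mul_assoc, ← mul_assoc _ w, w1, one_mul, v1])⟩
  have g2 := ((S.good_T e1).mul (S.good_T (X := D) (x := S.κ D) (a := 0) (b := 0) (y := 0)
    (by simp [fo]))).mul ((S.good_T e2).mul g1)
  let Tc : Matrix ι ι E →* Module.End A V :=
    { toFun := fun X => S.T (S.κ X), map_one' := by rw [map_one, T_one], map_mul' := S.T_const }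
  let U : (Module.End A V)ˣ := ⟨S.T k, v, v1, v2⟩
  refine ⟨U * Units.map Tc D * U⁻¹, by rw [conj_pow, ← map_pow, hD, map_one, mul_one, mul_inv_cancel],
    g2.cast ?_ (by simp) (by simp) ?_ ?_ ?_⟩
  · rw [← mul_assoc (S.T k'), w1, one_mul]; rfl
  · simp [ad, sub_eq_add_neg]
  · simp [ad, sub_eq_add_neg]
  · simp only [ad, mul_sub, trace_sub]; simp; ring

theorem good_prod : ∀ (n : ℕ) (θ : Fin n → Module.End A V) (x : Fin n → Matrix ι ι R)
    (D : Fin n → (Matrix ι ι E)ˣ) (η ξ : Fin n → Matrix ι ι E),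
    (∀ j, S.Good (θ j) (x j) (D j) (η j - ad (D j) (η j)) (ξ j - ad (D j) (ξ j))
      (-trace (ξ j * (η j - ad (D j) (η j))))) →
    S.Good (List.ofFn θ).prod (List.ofFn x).prod (List.ofFn D).prod (av n D η) (av n D ξ)
      (lam n D ξ η)
  | 0, _, _, _, _, _, _ => ⟨⟨0, by simp [fo, av]⟩, 1, by simp [T_one], 0, by
      simpa [lam] using isDet_one⟩
  | n + 1, θ, x, D, η, ξ, h => by
    simp only [List.ofFn_succ, List.prod_cons]
    exact (h 0).mul (good_prod n _ _ _ _ _ fun j => h j.succ)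

omit [Module.Free A V] in
theorem fr_mul (x y : Matrix ι ι R) : FR (S.T x * S.T y - S.T (x * y)) := by
  rw [T_mul, sub_sub_cancel_left]
  exact ((S.frl x).mul_right _).neg

theorem cert {n p e : ℕ} (D : Fin n → (Matrix ι ι E)ˣ) (η ξ : Fin n → Matrix ι ι E)
    (k k' y : Fin n → Matrix ι ι R) (hk : ∀ j, k j = 1 + S.ε • (S.fo (η j) (ξ j) + S.ε • y j))
    (hk' : ∀ j, k j * k' j = 1) (hD : ∀ j, D j ^ p = 1)
    (ρ : FreeGroup (Fin n) →* Matrix ι ι R) (hρ : ∀ j, ρ (.of j) = k j * S.κ (D j) * k' j)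
    (K : Subgroup (FreeGroup (Fin n))) (hK : K ≤ ρ.ker)
    (hr : (List.ofFn FreeGroup.of).prod ∈ K)
    (he : (List.ofFn FreeGroup.of).prod ^ e ∈ NN p K) :
    ∃ s, (1 + S.ε ^ 2 * S.j (lam n D ξ η) + S.ε ^ 3 * s) ^ e = 1 := by
  choose θ h1 h2 using fun j => S.good_conj (hk j) (hk' j) (hD j)
  let Θ : FreeGroup (Fin n) →* Module.End A V := (Units.coeHom _).comp (FreeGroup.lift θ)
  have a0 : ∀ γ, Θ γ * Θ γ⁻¹ = 1 := fun γ => by rw [← map_mul, mul_inv_cancel, map_one]
  have a0' : ∀ γ, Θ γ⁻¹ * Θ γ = 1 := fun γ => by rw [← map_mul, inv_mul_cancel, map_one]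
  have a1 : ∀ j, FR (Θ (.of j) - S.T (ρ (.of j))) := fun j => by
    obtain ⟨-, u, u1, s, u2⟩ := h2 j
    have := u2.fr.mul_right (S.T (ρ (.of j)))
    rwa [sub_mul, one_mul, hρ, ← u1, ← hρ, show (θ j : Module.End A V) = Θ (.of j) by
      simp [Θ]] at this
  have a2 : ∀ γ, FR (Θ γ - S.T (ρ γ)) := fun γ => by
    induction γ using FreeGroup.induction_on with
    | C1 => simpa [T_one] using FR.zero
    | of j => exact a1 j
    | inv_of j h =>
      have := ((h.mul_right (S.T (ρ (.of j)⁻¹))).add (S.fr_mul (ρ (.of j)) (ρ (.of j)⁻¹))).mul_left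
        (-Θ (.of j)⁻¹)
      rwa [← map_mul, mul_inv_cancel, map_one, T_one, sub_mul, sub_add_sub_cancel, mul_sub, neg_mul,
        ← mul_assoc, a0', one_mul, mul_one, neg_sub_neg] at this
    | mul x y hx hy =>
      have := ((hx.mul_right (Θ y)).add (hy.mul_left (S.T (ρ x)))).add (S.fr_mul (ρ x) (ρ y))
      rwa [sub_mul, mul_sub, sub_add_sub_cancel, sub_add_sub_cancel, ← map_mul, ← map_mul] at this
  let N : Subgroup (FreeGroup (Fin n)) :=
    { carrier := {γ | IsDet (Θ γ) 1}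
      one_mem' := by simpa using isDet_one
      mul_mem' := fun ha hb => by simpa using ha.mul hb
      inv_mem' := fun {x} hx => by
        obtain ⟨c, h3, h4⟩ := IsDet.inv hx (a0 x)
        rwa [(one_mul c).symm.trans h4] at h3 }
  have a3 : ∀ {x c} g, IsDet (Θ x) c → IsDet (Θ (g * x * g⁻¹)) c := fun g h => by
    rw [map_mul, map_mul]; exact h.conj (a0 g) (a0' g)
  have : N.Normal := ⟨fun x hx g => a3 g hx⟩
  have a4 : NN p K ≤ N := by
    refine sup_le (Subgroup.commutator_le.mpr fun g _ x hx => ?_)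
      (Subgroup.normalClosure_le_normal ?_)
    · obtain ⟨c, hc⟩ := FR.exists_isDet (q := Θ x) (by
        have := a2 x
        rwa [hK hx, T_one] at this)
      obtain ⟨c', h3, h4⟩ := hc.inv (a0 x)
      have := (a3 g hc).mul h3
      rwa [h4, ← map_mul] at this
    · rintro _ ⟨j, rfl⟩
      change IsDet (Θ (FreeGroup.of j ^ p)) 1
      simp only [Θ, MonoidHom.comp_apply, map_pow (FreeGroup.lift θ), FreeGroup.lift_apply_of, h1]
      exact isDet_one
  obtain ⟨-, u, u1, s, u2⟩ := S.good_prod n (fun j => θ j) _ D η ξ h2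
  have a5 : (List.ofFn fun j => k j * S.κ (D j) * k' j).prod = 1 := by
    rw [← hK hr, map_list_prod, List.map_ofFn]; congr 2; exact funext fun j => (hρ j).symm
  have a6 : Θ (List.ofFn FreeGroup.of).prod = u := by
    rw [a5, T_one, mul_one] at u1
    rw [← u1, map_list_prod, List.map_ofFn]; congr 2
  have a7 : ∀ e, IsDet (u ^ e) ((1 + S.ε ^ 2 * S.j (lam n D ξ η) + S.ε ^ 3 * s) ^ e) := fun e => by
    induction e with
    | zero => simpa using isDet_one
    | succ e ih => rw [pow_succ, pow_succ]; exact ih.mul u2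
  refine ⟨s, (a7 e).unique ?_⟩
  rw [← a6, ← map_pow]; exact a4 he

end Setup

end Pool.Agent.MP_94218c_al

end

-- part MP_94218c_al.Group
section

/-!
The group theoretic reduction.
-/

namespace Pool.Agent.MP_94218c_al

open Subgroup

open scoped IsMulCommutative in
theorem pair {p : ℕ} [Fact p.Prime] {Q : Type} [Group Q] (a b : Q) (ha : a ^ p = 1)
    (hb : b ^ p = 1) (hper : ∀ x : Q, ∃ k, x ^ p ^ k ∈ center Q)
    (hfin : (center Q).relIndex (closure {a, b}) ≠ 0) :
    Finite (closure {a, b} : Subgroup Q) ∧ IsPGroup p (closure {a, b} : Subgroup Q) := by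
  let L : Subgroup Q := closure {a, b}
  have h0 : (center Q).subgroupOf L ≤ center L := fun x hx =>
    mem_center_iff.mpr fun y => Subtype.ext (mem_center_iff.mp hx y)
  have : ((center Q).subgroupOf L).FiniteIndex := ⟨hfin⟩
  have : (center L).FiniteIndex := finiteIndex_of_le h0
  have h1 : IsPGroup p (L ⧸ center L) := fun x => by
    obtain ⟨x, rfl⟩ := QuotientGroup.mk_surjective x
    obtain ⟨k, hk⟩ := hper x
    exact ⟨k, by rw [← QuotientGroup.mk_pow, QuotientGroup.eq_one_iff]; exact h0 hk⟩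
  obtain ⟨n, hn⟩ := IsPGroup.iff_card.mp h1
  let ψ : L →* center L := (powMonoidHom p).comp (MonoidHom.transferCenterPow L)
  have h2 : ∀ x : L, ((ψ x : L) : Q) = (x : Q) ^ p ^ (n + 1) := fun x => by
    simp [ψ, index_eq_card, hn, pow_succ, pow_mul]
  have h3 : ψ = 1 := by
    refine MonoidHom.eq_of_eqOn_dense (closure_closure_coe_preimage (k := {a, b})) fun x hx => ?_
    refine Subtype.ext (Subtype.ext ((h2 x).trans ?_))
    rw [pow_succ', pow_mul]
    rcases hx with h | h <;> simp [show (x : Q) = _ from h, ha, hb]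
  have h4 : IsPGroup p L := fun x => ⟨n + 1, Subtype.ext (by
    rw [SubmonoidClass.coe_pow, ← h2, h3]; rfl)⟩
  have : Finite (center L) := CommGroup.finite_of_fg_isMulTorsion _ fun x => by
    obtain ⟨k, hk⟩ := h4.to_subgroup _ x
    exact isOfFinOrder_iff_pow_eq_one.mpr ⟨_, pow_pos (Fact.out : p.Prime).pos k, hk⟩
  exact ⟨Finite.of_subgroup_quotient (center L), h4⟩

theorem final {p : ℕ} [Fact p.Prime] (hp : 2 < p) {Q ι : Type} [Group Q] (d : ι → Q)
    (hgen : closure (Set.range d) = ⊤) (hper : ∀ x : Q, ∃ k, x ^ p ^ k ∈ center Q)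
    (hd : ∀ j, d j ^ p = 1)
    (hfin : ∀ j g h, (center Q).relIndex (closure {g⁻¹ * d j * g, h⁻¹ * d j * h}) ≠ 0)
    (r : Q) (hr : r ∈ center Q) (hr' : ∀ e, 0 < e → r ^ e ≠ 1) :
    ∃ (G : Type) (_ : Group G) (a : G), (∀ g : G, IsOfFinOrder g) ∧
      (∀ g h : G, Finite (closure {g⁻¹ * a * g, h⁻¹ * a * h} : Subgroup G) ∧
        IsPGroup p (closure {g⁻¹ * a * g, h⁻¹ * a * h} : Subgroup G)) ∧
      ¬ ∃ N : Subgroup G, N.Normal ∧ IsPGroup p N ∧ a ∈ N := by
  obtain ⟨Z, hZ, ⟨z1, z2⟩, z3⟩ := zorn_le_nonempty₀ {Z : Subgroup Q | Z ≤ center Q ∧ r ∉ Z}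
    (fun c hc hc' y hy => ⟨sSup c, ⟨sSup_le fun z hz => (hc hz).1, fun h => by
      obtain ⟨z, hz, h⟩ := (mem_sSup_of_directedOn ⟨y, hy⟩ hc'.directedOn).mp h
      exact (hc hz).2 h⟩, fun z hz => le_sSup hz⟩) (zpowers (r ^ 2))
    ⟨zpowers_le_of_mem (pow_mem hr 2), fun ⟨k, hk⟩ => by
      refine hr' (2 * k - 1).natAbs (by omega) ?_
      rw [pow_natAbs_eq_one, zpow_sub, zpow_mul, zpow_one, mul_inv_eq_one]
      exact_mod_cast hk⟩
  have : Z.Normal := ⟨fun x hx g => by rwa [mem_center_iff.mp (z1 hx) g, mul_inv_cancel_right]⟩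
  let π := QuotientGroup.mk' Z
  have hπ := QuotientGroup.mk'_surjective Z
  have r2 : π r ^ 2 = 1 := by
    rw [← map_pow]; exact (QuotientGroup.eq_one_iff _).mpr (hZ (mem_zpowers _))
  have r1 : π r ≠ 1 := fun h => z2 ((QuotientGroup.eq_one_iff _).mp h)
  have h1 : ∀ z ∈ center Q, IsOfFinOrder (π z) := fun z hz => by
    by_cases h : r ∈ Z ⊔ zpowers z
    · obtain ⟨y, hy, _, ⟨k, rfl⟩, h⟩ := mem_sup_of_normal_left.mp h
      have h2 : π r = π z ^ k := by
        rw [← h, map_mul, show π y = 1 from (QuotientGroup.eq_one_iff _).mpr hy, one_mul, map_zpow]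
      refine isOfFinOrder_iff_zpow_eq_one.mpr ⟨k * 2, fun e => r1 ?_, ?_⟩
      · rw [h2, show k = 0 by omega, zpow_zero]
      · rw [zpow_mul, ← h2]; exact_mod_cast r2
    · have := z3 (y := Z ⊔ zpowers z) ⟨sup_le z1 (zpowers_le_of_mem hz), h⟩ le_sup_left
      rw [show π z = 1 from (QuotientGroup.eq_one_iff _).mpr
        (this (mem_sup_right (mem_zpowers z)))]
      exact IsOfFinOrder.one
  by_contra! H
  have h2 : ∀ j, ∃ N : Subgroup (Q ⧸ Z), N.Normal ∧ IsPGroup p N ∧ π (d j) ∈ N := fun j => by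
    refine H _ _ _ (fun g => ?_) fun g h => ?_
    · obtain ⟨g, rfl⟩ := hπ g
      obtain ⟨k, hk⟩ := hper g
      have := h1 _ hk
      rw [map_pow] at this
      exact this.of_pow (pow_pos (by omega) k).ne'
    · obtain ⟨g, rfl⟩ := hπ g
      obtain ⟨h, rfl⟩ := hπ h
      have h3 : ∀ g : Q, (g⁻¹ * d j * g) ^ p = 1 := fun g => by
        have := conj_pow (a := g⁻¹) (b := d j) (i := p)
        rwa [inv_inv, hd, mul_one, inv_mul_cancel] at this
      obtain ⟨h4, h5⟩ := pair _ _ (h3 g) (h3 h) hper (hfin j g h)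
      have h6 : closure {(π g)⁻¹ * π (d j) * π g, (π h)⁻¹ * π (d j) * π h} =
          (closure {g⁻¹ * d j * g, h⁻¹ * d j * h}).map π := by
        simp [MonoidHom.map_closure, Set.image_pair]
      rw [h6]
      exact ⟨Finite.of_surjective _ (π.subgroupMap_surjective _), h5.map π⟩
  choose N n1 n2 n3 using h2
  have h3 : (⨆ j, N j) = ⊤ := by
    rw [eq_top_iff, ← map_top_of_surjective π hπ, ← hgen, MonoidHom.map_closure, closure_le]
    rintro _ ⟨_, ⟨j, rfl⟩, rfl⟩
    exact mem_iSup_of_mem j (n3 j)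
  obtain ⟨k, hk⟩ := Sylow.iSup_of_normal N n2 ⟨π r, h3 ▸ mem_top _⟩
  obtain ⟨m, hm⟩ := ((Fact.out : p.Prime).odd_of_ne_two hp.ne').pow (n := k)
  have h4 : π r ^ p ^ k = 1 := congrArg Subtype.val hk
  rw [hm, pow_succ, pow_mul, r2, one_pow, one_mul] at h4
  exact r1 h4

theorem reduce {p n : ℕ} [Fact p.Prime] (hp : 2 < p) (K : ℕ → Subgroup (FreeGroup (Fin n)))
    (mono : Monotone K) [∀ i, (K i).Normal] (r : FreeGroup (Fin n)) (hr : r ∈ K 0)
    (hper : ∀ γ, ∃ i a, γ ^ p ^ a ∈ K i)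
    (hfin : ∀ j g h, ∃ i, (K i).relIndex
      (closure {g⁻¹ * FreeGroup.of j * g, h⁻¹ * FreeGroup.of j * h}) ≠ 0)
    (hcert : ∀ i e, 0 < e → r ^ e ∉ NN p (K i)) :
    ∃ (G : Type) (_ : Group G) (a : G), (∀ g : G, IsOfFinOrder g) ∧
      (∀ g h : G, Finite (closure {g⁻¹ * a * g, h⁻¹ * a * h} : Subgroup G) ∧
        IsPGroup p (closure {g⁻¹ * a * g, h⁻¹ * a * h} : Subgroup G)) ∧
      ¬ ∃ N : Subgroup G, N.Normal ∧ IsPGroup p N ∧ a ∈ N := by
  let N := ⨆ i, NN p (K i)
  have hN : ∀ x, x ∈ N ↔ ∃ i, x ∈ NN p (K i) := fun x => mem_iSup_of_directed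
    (Monotone.directed_le fun i j h => sup_le_sup_right (commutator_mono le_rfl (mono h)) _)
  have : ∀ i, (NN p (K i)).Normal := fun i => by unfold NN; infer_instance
  have : N.Normal := ⟨fun x hx g => by
    obtain ⟨i, hi⟩ := (hN x).mp hx
    exact (hN _).mpr ⟨i, Normal.conj_mem inferInstance x hi g⟩⟩
  let π := QuotientGroup.mk' N
  have hπ := QuotientGroup.mk'_surjective N
  have h1 : ∀ i, K i ≤ (center _).comap π := fun i x hx => mem_center_iff.mpr fun g => by
    obtain ⟨g, rfl⟩ := hπ g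
    rw [← commutatorElement_eq_one_iff_mul_comm, ← map_commutatorElement]
    exact (QuotientGroup.eq_one_iff _).mpr
      ((hN _).mpr ⟨i, mem_sup_left (commutator_mem_commutator (mem_top g) hx)⟩)
  refine final hp (fun j => π (.of j)) ?_ (fun x => ?_) (fun j => ?_) (fun j g h => ?_) (π r)
    (h1 0 hr) fun e he h => ?_
  · rw [← map_top_of_surjective π hπ, ← FreeGroup.closure_range_of, MonoidHom.map_closure,
      ← Set.range_comp]; rfl
  · obtain ⟨x, rfl⟩ := hπ x
    obtain ⟨i, a, h⟩ := hper x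
    exact ⟨a, by rw [← map_pow]; exact h1 i h⟩
  · rw [← map_pow]
    exact (QuotientGroup.eq_one_iff _).mpr
      ((hN _).mpr ⟨0, mem_sup_right (subset_normalClosure ⟨j, rfl⟩)⟩)
  · obtain ⟨g, rfl⟩ := hπ g
    obtain ⟨h, rfl⟩ := hπ h
    obtain ⟨i, hi⟩ := hfin j g h
    have h6 : closure {(π g)⁻¹ * π (.of j) * π g, (π h)⁻¹ * π (.of j) * π h} =
        (closure {g⁻¹ * .of j * g, h⁻¹ * .of j * h}).map π := by
      simp [MonoidHom.map_closure, Set.image_pair]
    rw [h6, ← relIndex_comap]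
    exact fun e => hi (relIndex_eq_zero_of_le_left (h1 i) e)
  · rw [← map_pow] at h
    obtain ⟨i, hi⟩ := (hN _).mp ((QuotientGroup.eq_one_iff _).mp h)
    exact hcert i e he hi

end Pool.Agent.MP_94218c_al

end

-- part MP_94218c_al.Alg
section

/-!
The relations imposed on the group algebra.
-/

namespace Pool.Agent.MP_94218c_al

open Subgroup

/-- The relations imposed at stage `i`. -/
def Sat {n : ℕ} (a : ℕ → FreeGroup (Fin n) × FreeGroup (Fin n)) (i : ℕ) {B : Type} [Ring B]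
    (ψ : FreeGroup (Fin n) →* B) : Prop :=
  (∀ j, (ψ (.of j) - 1) * (ψ (.of j) - 1) = 0) ∧ ψ (List.ofFn FreeGroup.of).prod = 1 ∧
    ∀ k < i, ((ψ (a k).1 - 1) * (ψ (a k).2 - 1)) ^ 2 ^ (k + 5) = 0

theorem Sat.map {n : ℕ} {a : ℕ → FreeGroup (Fin n) × FreeGroup (Fin n)} {i : ℕ} {B B' : Type}
    [Ring B] [Ring B'] {ψ : FreeGroup (Fin n) →* B} (h : Sat a i ψ) (f : B →+* B') :
    Sat a i ((f : B →* B').comp ψ) :=
  ⟨fun j => by simpa using congrArg f (h.1 j), by simpa using congrArg f h.2.1,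
    fun k hk => by simpa using congrArg f (h.2.2 k hk)⟩

theorem univ_sat (F : Type) [CommRing F] {n : ℕ} (a : ℕ → FreeGroup (Fin n) × FreeGroup (Fin n))
    (i : ℕ) : ∃ (B : Type) (_ : Ring B) (_ : Algebra F B) (ψ : FreeGroup (Fin n) →* B),
      Sat a i ψ ∧ ∀ (B' : Type) [Ring B'] [Algebra F B'] (ψ' : FreeGroup (Fin n) →* B'),
        Sat a i ψ' → ψ.ker ≤ ψ'.ker := by
  let o := MonoidAlgebra.of F (FreeGroup (Fin n))
  let rel : MonoidAlgebra F (FreeGroup (Fin n)) → MonoidAlgebra F (FreeGroup (Fin n)) → Prop :=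
    fun x y => (∃ j, x = (o (.of j) - 1) * (o (.of j) - 1) ∧ y = 0) ∨
      (x = o (List.ofFn FreeGroup.of).prod ∧ y = 1) ∨
      ∃ k < i, x = ((o (a k).1 - 1) * (o (a k).2 - 1)) ^ 2 ^ (k + 5) ∧ y = 0
  let π := RingQuot.mkAlgHom F rel
  refine ⟨RingQuot rel, inferInstance, inferInstance, (π : _ →* RingQuot rel).comp o,
    ⟨fun j => ?_, ?_, fun k hk => ?_⟩, fun B' _ _ ψ' h γ hγ => ?_⟩
  · simpa using RingQuot.mkAlgHom_rel F (s := rel) (Or.inl ⟨j, rfl, rfl⟩)
  · simpa using RingQuot.mkAlgHom_rel F (s := rel) (Or.inr (Or.inl ⟨rfl, rfl⟩))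
  · simpa using RingQuot.mkAlgHom_rel F (s := rel) (Or.inr (Or.inr ⟨k, hk, rfl, rfl⟩))
  · let φ := MonoidAlgebra.lift F B' (FreeGroup (Fin n)) ψ'
    have h1 : ∀ x, φ (o x) = ψ' x := fun x => MonoidAlgebra.lift_of ψ' x
    have h2 : ∀ ⦃x y⦄, rel x y → φ x = φ y := by
      rintro _ _ (⟨j, rfl, rfl⟩ | ⟨rfl, rfl⟩ | ⟨k, hk, rfl, rfl⟩)
      · simpa [h1] using h.1 j
      · rw [h1, map_one, h.2.1]
      · simpa [h1] using h.2.2 k hk
    have h3 := RingQuot.liftAlgHom_mkAlgHom_apply F φ h2 (o γ)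
    rw [show RingQuot.mkAlgHom F rel (o γ) = 1 from hγ, map_one, h1] at h3
    exact h3.symm

theorem unip {p : ℕ} [Fact p.Prime] {B : Type} [Ring B] [Algebra (ZMod p) B] {x : B} {m : ℕ}
    (h : x ^ m = 0) : (1 + x) ^ p ^ m = 1 := by
  nontriviality B
  have := charP_of_injective_algebraMap (algebraMap (ZMod p) B).injective p
  rw [add_pow_char_pow_of_commute p m (Commute.one_left x), one_pow,
    pow_eq_zero_of_le (Nat.lt_pow_self (Fact.out : p.Prime).one_lt).le h, add_zero]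

theorem fin_index {F G B : Type} [Field F] [Finite F] [Group G] [Ring B] [Algebra F B]
    (ψ : G →* B) {a b : G} {M : ℕ} (ha : (ψ a - 1) * (ψ a - 1) = 0)
    (hb : (ψ b - 1) * (ψ b - 1) = 0) (hab : ((ψ a - 1) * (ψ b - 1)) ^ M = 0) :
    ψ.ker.relIndex (closure {a, b}) ≠ 0 := by
  have hi : ∀ a, (ψ a - 1) * (ψ a - 1) = 0 → ψ a⁻¹ = 1 - (ψ a - 1) := fun a ha => by
    have h1 : ψ a * (1 - (ψ a - 1)) = 1 := by
      have : ψ a * (1 - (ψ a - 1)) = 1 - (ψ a - 1) * (ψ a - 1) := by noncomm_ring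
      rw [this, ha, sub_zero]
    rw [← mul_one (ψ a⁻¹), ← h1, ← mul_assoc, ← map_mul, inv_mul_cancel, map_one, one_mul, h1]
  have ia := hi a ha
  have ib := hi b hb
  obtain ⟨x, hx⟩ : ∃ x, ψ a = 1 + x := ⟨ψ a - 1, by abel⟩
  obtain ⟨y, hy⟩ : ∃ y, ψ b = 1 + y := ⟨ψ b - 1, by abel⟩
  simp only [hx, hy, add_sub_cancel_left] at ha hb hab ia ib
  let w : ℕ × Bool × Bool → B := fun q =>
    (if q.2.1 then y else 1) * ((x * y) ^ q.1 * if q.2.2 then x else 1)
  have hw : (Set.range w).Finite := by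
    refine (((Set.finite_lt_nat M).prod Set.finite_univ).image w).insert 0 |>.subset ?_
    rintro _ ⟨q, rfl⟩
    by_cases h : q.1 < M
    · exact Or.inr ⟨q, ⟨h, trivial⟩, rfl⟩
    · exact Or.inl (by simp [w, pow_eq_zero_of_le (not_lt.mp h) hab])
  let W := Submodule.span F (Set.range w)
  have : Module.Finite F W := Module.Finite.span_of_finite F hw
  have : Finite W := Module.finite_of_finite F
  have h0 : ∀ q, w q ∈ W := fun q => Submodule.subset_span ⟨q, rfl⟩
  have h1 : ∀ z : B, (∀ q, z * w q ∈ W) → ∀ v ∈ W, z * v ∈ W := fun z hz v hv =>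
    (Submodule.span_le.mpr (by rintro _ ⟨q, rfl⟩; exact hz q) :
      W ≤ W.comap (LinearMap.mulLeft F z)) hv
  have h2 : ∀ v ∈ W, x * v ∈ W := h1 x fun ⟨k, s, t⟩ => by
    cases s
    · cases k with
      | zero =>
        cases t
        · simpa [w] using h0 (0, false, true)
        · simp [w, ha]
      | succ k => simp [w, pow_succ', ← mul_assoc, ha]
    · simpa [w, pow_succ', mul_assoc] using h0 (k + 1, false, t)
  have h3 : ∀ v ∈ W, y * v ∈ W := h1 y fun ⟨k, s, t⟩ => by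
    cases s
    · simpa [w] using h0 (k, true, t)
    · simp [w, ← mul_assoc, hb]
  have h4 : ∀ g ∈ closure {a, b}, ψ g ∈ W := fun g hg => by
    induction hg using closure_induction_left with
    | one => simpa [w] using h0 (0, false, false)
    | mul_left c hc g _ h =>
      rcases hc with rfl | rfl
      · rw [map_mul, hx, add_mul, one_mul]; exact add_mem h (h2 _ h)
      · rw [map_mul, hy, add_mul, one_mul]; exact add_mem h (h3 _ h)
    | inv_mul_cancel c hc g _ h =>
      rcases hc with rfl | rfl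
      · rw [map_mul, ia, sub_mul, one_mul]; exact sub_mem h (h2 _ h)
      · rw [map_mul, ib, sub_mul, one_mul]; exact sub_mem h (h3 _ h)
  have : Finite ((closure {a, b}).map ψ.toHomUnits) := Finite.of_injective
    (fun u => (⟨(u.1 : B), by obtain ⟨_, g, hg, rfl⟩ := u; exact h4 g hg⟩ : W))
    fun u v h => Subtype.ext (Units.ext (congrArg Subtype.val h))
  rw [show ψ.ker = ψ.toHomUnits.ker from Subgroup.ext fun g => by simp,
    relIndex_ker]
  exact Nat.card_pos.ne'

theorem reduce2 {p n : ℕ} [Fact p.Prime] (hp : 2 < p)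
    (hcert : ∀ (a : ℕ → FreeGroup (Fin n) × FreeGroup (Fin n)) (i e : ℕ)
      (K : Subgroup (FreeGroup (Fin n))), 0 < e → (List.ofFn FreeGroup.of).prod ∈ K →
      (∀ (B : Type) [Ring B] [Algebra (ZMod p) B] (ψ : FreeGroup (Fin n) →* B),
        Sat a i ψ → K ≤ ψ.ker) → (List.ofFn FreeGroup.of).prod ^ e ∉ NN p K) :
    ∃ (G : Type) (_ : Group G) (a : G), (∀ g : G, IsOfFinOrder g) ∧
      (∀ g h : G, Finite (closure {g⁻¹ * a * g, h⁻¹ * a * h} : Subgroup G) ∧
        IsPGroup p (closure {g⁻¹ * a * g, h⁻¹ * a * h} : Subgroup G)) ∧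
      ¬ ∃ N : Subgroup G, N.Normal ∧ IsPGroup p N ∧ a ∈ N := by
  obtain ⟨a, ha⟩ := exists_surjective_nat (FreeGroup (Fin n) × FreeGroup (Fin n))
  choose B _ _ ψ h1 h2 using univ_sat (ZMod p) a
  have mono : Monotone fun i => (ψ i).ker := fun i j h =>
    h2 i _ _ ⟨(h1 j).1, (h1 j).2.1, fun k hk => (h1 j).2.2 k (hk.trans_le h)⟩
  refine reduce hp _ mono _ (h1 0).2.1 (fun γ => ?_) (fun j g h => ?_) fun i e he =>
    hcert a i e _ he (h1 i).2.1 (h2 i)
  · obtain ⟨k, hk⟩ := ha (γ, γ)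
    have h3 := (h1 (k + 1)).2.2 k k.lt_succ_self
    rw [hk, ← pow_two, ← pow_mul] at h3
    exact ⟨k + 1, _, by simpa [MonoidHom.mem_ker] using unip (p := p) h3⟩
  · obtain ⟨k, hk⟩ := ha (g⁻¹ * FreeGroup.of j * g, h⁻¹ * FreeGroup.of j * h)
    have h3 := (h1 (k + 1)).2.2 k k.lt_succ_self
    rw [hk] at h3
    have h4 : ∀ g, (ψ (k + 1) (g⁻¹ * FreeGroup.of j * g) - 1) *
        (ψ (k + 1) (g⁻¹ * FreeGroup.of j * g) - 1) = 0 := fun g => by
      have h5 : ψ (k + 1) (g⁻¹ * FreeGroup.of j * g) - 1 =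
          ψ (k + 1) g⁻¹ * (ψ (k + 1) (.of j) - 1) * ψ (k + 1) g := by
        rw [mul_sub, sub_mul, mul_one, ← map_mul, ← map_mul, ← map_mul, inv_mul_cancel, map_one]
      rw [h5, mul_assoc, ← mul_assoc (ψ _ g), ← mul_assoc (ψ _ g), ← map_mul, mul_inv_cancel,
        map_one, one_mul, mul_assoc, ← mul_assoc (_ - _), (h1 (k + 1)).1, zero_mul, mul_zero]
    exact ⟨k + 1, fin_index (F := ZMod p) _ (h4 g) (h4 h) h3⟩

end Pool.Agent.MP_94218c_al

end

-- part MP_94218c_al.Loop
section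

/-!
The Laurent polynomial model.
-/

namespace Pool.Agent.MP_94218c_al

open Matrix LaurentPolynomial

theorem exists_setup {E A : Type} [Field E] [CommRing A] (ι : Type) [Fintype ι] [DecidableEq ι]
    (j : E →+* A) (ε : A) (nil : IsNilpotent ε) :
    ∃ S : Setup E A A[T;T⁻¹] ι (ι → A[T;T⁻¹]),
      S.κ = ((algebraMap A A[T;T⁻¹]).comp j).mapMatrix ∧ S.j = j ∧ S.ε = ε := by
  let b : Module.Basis ℤ A A[T;T⁻¹] := AddMonoidAlgebra.basis ℤ A
  have hb : ∀ n, b n = T n := fun n => rfl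
  let P : Module.End A A[T;T⁻¹] := b.constr A fun n => if 0 ≤ n then T n else 0
  let Q : Module.End A A[T;T⁻¹] := b.constr A fun n => if n = 0 then T n else 0
  have hP : ∀ n, P (T n) = if 0 ≤ n then T n else 0 := fun n => b.constr_basis A _ n
  have hQ : ∀ n, Q (T n) = if n = 0 then T n else 0 := fun n => b.constr_basis A _ n
  let Φ : Matrix ι ι A[T;T⁻¹] →ₐ[A] Module.End A (ι → A[T;T⁻¹]) :=
    AlgHom.ofLinearMap
      { toFun := fun x => (Matrix.mulVecLin x).restrictScalars A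
        map_add' := fun x y => LinearMap.ext fun v => Matrix.add_mulVec x y v
        map_smul' := fun c x => LinearMap.ext fun v => Matrix.smul_mulVec c x v }
      (LinearMap.ext fun v => Matrix.one_mulVec v)
      fun x y => LinearMap.ext fun v => (Matrix.mulVec_mulVec v x y).symm
  have hΦ : ∀ x v, Φ x v = x *ᵥ v := fun _ _ => rfl
  let τ : ℤ → Matrix ι ι A[T;T⁻¹] := fun n => (T n : A[T;T⁻¹]) • 1
  have τ0 : τ 0 = 1 := by simp [τ]
  have c0 : ∀ (f : Module.End A A[T;T⁻¹]) (c : Matrix ι ι A),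
      Φ (c.map (algebraMap _ _)) * f.compLeft ι = f.compLeft ι * Φ (c.map (algebraMap _ _)) := by
    intro f c
    refine LinearMap.ext fun v => funext fun i => ?_
    simp only [Module.End.mul_apply, hΦ, mulVec, dotProduct, map_apply, LinearMap.compLeft_apply,
      Function.comp_apply, map_sum, ← Algebra.smul_def, map_smul]
  have c1 : ∀ f g h : Module.End A A[T;T⁻¹], (∀ n, f (g (T n)) = h (T n)) →
      (f.compLeft ι * g.compLeft ι : Module.End A (ι → A[T;T⁻¹])) = h.compLeft ι := by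
    intro f g h e
    exact LinearMap.ext fun v => funext fun i =>
      LinearMap.congr_fun (b.ext e : f ∘ₗ g = h) (v i)
  have sh : Φ (τ 1) * P.compLeft ι = (P.compLeft ι - Q.compLeft ι) * Φ (τ 1) := by
    have : LinearMap.mulLeft A (T 1 : A[T;T⁻¹]) ∘ₗ P =
        (P - Q) ∘ₗ LinearMap.mulLeft A (T 1 : A[T;T⁻¹]) := by
      refine b.ext fun n => ?_
      simp only [hb, LinearMap.comp_apply, LinearMap.mulLeft_apply, ← T_add, LinearMap.sub_apply,
        hP, hQ]
      split_ifs <;> first | omega | rw [sub_zero, T_add] | rw [sub_self, mul_zero]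
    refine LinearMap.ext fun v => funext fun i => ?_
    simpa [hΦ, smul_mulVec, τ] using LinearMap.congr_fun this (v i)
  let π : (ι → A[T;T⁻¹]) →ₗ[A] ι → A := (b.coord 0).compLeft ι
  let i₀ : (ι → A) →ₗ[A] ι → A[T;T⁻¹] := (Algebra.linearMap A A[T;T⁻¹]).compLeft ι
  have q1 : Q.compLeft ι = i₀ ∘ₗ π := by
    have : Q = Algebra.linearMap A A[T;T⁻¹] ∘ₗ b.coord 0 := by
      refine b.ext fun n => ?_
      rw [LinearMap.comp_apply, b.coord_apply, b.repr_self, hb, hQ, Finsupp.single_apply]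
      split_ifs with h <;> simp [h]
    rw [this]; rfl
  have q2 : FR (Q.compLeft ι) := ⟨ι, inferInstance, π, i₀, q1⟩
  have f1 : ∀ x y, FR (Φ x * P.compLeft ι - P.compLeft ι * Φ x) →
      FR (Φ y * P.compLeft ι - P.compLeft ι * Φ y) →
      FR (Φ (x * y) * P.compLeft ι - P.compLeft ι * Φ (x * y)) := fun x y hx hy => by
    have := (hy.mul_left (Φ x)).add (hx.mul_right (Φ y))
    rwa [mul_sub, sub_mul, mul_assoc (Φ x), sub_add_sub_cancel, ← mul_assoc, mul_assoc _ (Φ x),
      ← map_mul] at this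
  have f2 : FR (Φ (τ 1) * P.compLeft ι - P.compLeft ι * Φ (τ 1)) := by
    rw [sh, sub_mul, sub_sub_cancel_left]
    exact (q2.mul_right _).neg
  have f0 : ∀ m n, τ m * τ n = τ (m + n) := fun m n => by
    simp only [τ]
    rw [smul_mul_smul_comm, one_mul, T_add]
  have f3 : FR (Φ (τ (-1)) * P.compLeft ι - P.compLeft ι * Φ (τ (-1))) := by
    have := ((f2.mul_left (Φ (τ (-1)))).mul_right (Φ (τ (-1)))).neg
    rw [mul_sub, sub_mul, ← mul_assoc, ← map_mul, mul_assoc _ (_ * Φ _), mul_assoc _ (Φ _),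
      ← map_mul, f0, f0] at this
    simpa [τ0] using this
  have f4 : ∀ n, FR (Φ (τ n) * P.compLeft ι - P.compLeft ι * Φ (τ n)) := fun n => by
    induction n using Int.induction_on with
    | zero => simpa [τ0] using FR.zero
    | succ n ih => rw [← f0]; exact f1 _ _ ih f2
    | pred n ih => rw [sub_eq_add_neg (-(n : ℤ)), ← f0]; exact f1 _ _ ih f3
  have f5 : ∀ x y, FR (Φ x * P.compLeft ι - P.compLeft ι * Φ x) →
      FR (Φ y * P.compLeft ι - P.compLeft ι * Φ y) →
      FR (Φ (x + y) * P.compLeft ι - P.compLeft ι * Φ (x + y)) := fun x y hx hy => by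
    rw [map_add, add_mul, mul_add, add_sub_add_comm]; exact hx.add hy
  refine ⟨{
    Φ := Φ, κ := ((algebraMap A A[T;T⁻¹]).comp j).mapMatrix, j := j, P := P.compLeft ι,
    Q := Q.compLeft ι, t := T 1, t' := T (-1), ε := ε, nil := nil, sh := sh
    tt := by rw [← T_add]; rfl
    PP := c1 _ _ _ fun n => by rw [hP]; split_ifs with h <;> simp [hP, h]
    QP := c1 _ _ _ fun n => by
      rw [hP]; split_ifs with h
      · rfl
      · rw [hQ, if_neg (by omega), map_zero]
    PQ := c1 _ _ _ fun n => by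
      rw [hQ]; split_ifs with h
      exacts [by rw [hP, if_pos h.ge], map_zero _]
    QQ := c1 _ _ _ fun n => by
      rw [hQ]; split_ifs with h
      exacts [by rw [hQ, if_pos h], map_zero _]
    cP := fun c => c0 P (c.map j)
    cQ := fun c => c0 Q (c.map j)
    fr := fun x => ?_
    det0 := fun u c => ?_ }, rfl, rfl, rfl⟩
  · induction x using Matrix.induction_on' with
    | h_zero => simpa using FR.zero
    | h_add x y hx hy => exact f5 x y hx hy
    | h_std_basis i l r =>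
      induction r using LaurentPolynomial.induction_on' with
      | add x y hx hy => rw [single_add]; exact f5 _ _ hx hy
      | C_mul_T n a =>
        rw [show single i l (C a * T n) = (single i l a).map (algebraMap _ _) * (τ n) by
          rw [map_single _ _ _ (algebraMap A A[T;T⁻¹]), mul_smul_one, smul_single, smul_eq_mul,
            mul_comm]; rfl]
        exact f1 _ _ (by rw [c0, sub_self]; exact FR.zero) (f4 n)
  · have h1 : π ∘ₗ Φ ((c.map j).map (algebraMap _ _)) ∘ₗ i₀ = Matrix.toLin' (c.map j) := by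
      refine LinearMap.ext fun v => funext fun i => ?_
      have : ∀ a : A, b.coord 0 (algebraMap A A[T;T⁻¹] a) = a := fun a => by
        rw [Algebra.algebraMap_eq_smul_one, map_smul, ← T_zero, ← hb, b.coord_apply, b.repr_self]
        simp
      simp only [π, i₀, LinearMap.comp_apply, LinearMap.compLeft_apply, Function.comp_apply, hΦ,
        mulVec, dotProduct, map_apply, Algebra.linearMap_apply, ← map_mul, map_sum, this,
        toLin'_apply]
    obtain ⟨s, hs⟩ : ∃ s, LinearMap.det (1 + (u • (π ∘ₗ Φ ((c.map j).map (algebraMap _ _)))) ∘ₗ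
        i₀) = 1 + u * j (trace c) + u ^ 2 * s := ⟨_, by
      rw [LinearMap.smul_comp, LinearMap.comp_assoc, h1, ← LinearMap.det_toMatrix', map_add,
        map_smul, LinearMap.toMatrix'_one, LinearMap.toMatrix'_toLin', Matrix.det_one_add_smul,
        mul_comm (trace _), mul_comm _ (u ^ 2), ← AddMonoidHom.map_trace]⟩
    exact ⟨s, ι, inferInstance, _, i₀, by rw [q1, LinearMap.comp_smul]; rfl, hs.symm⟩

end Pool.Agent.MP_94218c_al

end
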