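import Pool.Agent.MP_94218c_al.Mg.Family

/-!
The product of the generators has infinite order in the universal central extension.
-/

namespace Pool.Agent.MP_94218c_al

open Matrix

theorem exists_U (F : Type) [Field F] (h : ℕ) : ∃ (U : Matrix (Fin (h + h)) (Fin (h + h)) F)
    (P : Matrix (Fin h) (Fin (h + h)) F) (Q : Matrix (Fin (h + h)) (Fin h) F),
    U * U = 0 ∧ P * U * Q = 1 := by
  let e : Fin (h + h) ≃ Fin h ⊕ Fin h := finSumFinEquiv.symm
  refine ⟨(fromBlocks 0 1 0 0).submatrix e e, (fromCols 1 0).submatrix id e,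
    (fromRows 0 1).submatrix e id, ?_, ?_⟩
  · simp [fromBlocks_multiply]
  · simp [fromCols_mul_fromBlocks, fromCols_mul_fromRows]

theorem not_torsion {p e : ℕ} [Fact p.Prime] {A : Type} [CommRing A] [Algebra (ZMod p) A]
    (he : 0 < e) {ε l : A} (hl : IsUnit l) (h0 : ε ^ (2 * e + 1) = 0) (h1 : ε ^ (2 * e) ≠ 0)
    (s : A) : (1 + ε ^ 2 * l + ε ^ 3 * s) ^ e ≠ 1 := by
  intro h
  have : Nontrivial A := nontrivial_of_ne _ _ h1
  have := charP_of_injective_algebraMap (algebraMap (ZMod p) A).injective p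
  have h2 : IsUnit (l + ε * s) :=
    IsNilpotent.isUnit_add_left_of_commute ⟨2 * e + 1, by rw [mul_pow, h0, zero_mul]⟩ hl
      (Commute.all _ _)
  rw [show 1 + ε ^ 2 * l + ε ^ 3 * s = 1 + ε ^ 2 * (l + ε * s) by ring] at h
  have h3 := unip (p := p) (x := ε ^ 2 * (l + ε * s)) (m := 2 * e + 1) (by
    rw [mul_pow, ← pow_mul, pow_mul', h0]; simp)
  obtain ⟨k, -, hk⟩ := (Nat.dvd_prime_pow Fact.out).mp (orderOf_dvd_of_pow_eq_one h3)
  have h4 := pow_orderOf_eq_one (1 + ε ^ 2 * (l + ε * s))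
  rw [hk, add_pow_char_pow, one_pow, add_eq_left] at h4
  have h5 := pow_eq_zero_of_le (hk ▸ Nat.le_of_dvd he (orderOf_dvd_of_pow_eq_one h)) h4
  rw [mul_pow, (h2.pow e).mul_left_eq_zero, ← pow_mul] at h5
  exact h1 h5

theorem exists_lift {F E R : Type} [Field F] [Field E] [Algebra F E] [Algebra.FormallySmooth F E]
    [CommRing R] [Algebra F R] (c : E →ₐ[F] R) (x y : Derivation F E E) (ε t t' : R)
    (hε : IsNilpotent ε) : ∃ (σ : E →ₐ[F] R) (z : E → R),
      ∀ a, σ a = c a + ε * (t' * c (y a) + t * c (x a) + ε * z a) := by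
  let I := Ideal.span {ε ^ 2}
  have hI : IsNilpotent I := by
    obtain ⟨m, hm⟩ := hε
    exact ⟨m, by rw [Ideal.span_singleton_pow, ← pow_mul, mul_comm, pow_mul, hm]; simp⟩
  let σ : E →ₐ[F] R ⧸ I := AlgHom.ofLinearMap
    { toFun := fun a => Ideal.Quotient.mkₐ F I (c a + ε * (t' * c (y a) + t * c (x a)))
      map_add' := fun a b => by rw [← map_add]; congr 1; simp only [map_add]; ring
      map_smul' := fun r a => by
        rw [RingHom.id_apply, ← map_smul]; congr 1
        simp only [Derivation.map_smul, map_smul, smul_add, mul_smul_comm, mul_add] }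
    (by simp) fun a b => by
      simp only [LinearMap.coe_mk, AddHom.coe_mk, ← map_mul (Ideal.Quotient.mkₐ F I)]
      refine Ideal.Quotient.eq.mpr (Ideal.mem_span_singleton'.mpr
        ⟨-((t' * c (y a) + t * c (x a)) * (t' * c (y b) + t * c (x b))), ?_⟩)
      simp only [Derivation.leibniz, smul_eq_mul, map_add, map_mul]
      ring
  have h : ∀ a, ∃ z, Algebra.FormallySmooth.lift I hI σ a =
      c a + ε * (t' * c (y a) + t * c (x a) + ε * z) := fun a => by
    obtain ⟨z, hz⟩ := Ideal.mem_span_singleton'.mp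
      (Ideal.Quotient.eq.mp (Algebra.FormallySmooth.mk_lift I hI σ a))
    exact ⟨z, by linear_combination -hz⟩
  choose z hz using h
  exact ⟨_, z, hz⟩

theorem cert1 {p n : ℕ} [Fact p.Prime] {E A R ι V : Type} [Field E] [Algebra (ZMod p) E]
    [Algebra.EssFiniteType (ZMod p) E] [Fintype ι] [DecidableEq ι] [CommRing A] [CommRing R]
    [Algebra A R] [AddCommGroup V] [Module A V] [Module.Free A V] [Algebra (ZMod p) R]
    (S : Setup E A R ι V) (co : E →ₐ[ZMod p] R) (hκ : ∀ m, S.κ m = co.mapMatrix m)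
    {a : ℕ → FreeGroup (Fin n) × FreeGroup (Fin n)} {i e : ℕ} {K : Subgroup (FreeGroup (Fin n))}
    (hr : (List.ofFn FreeGroup.of).prod ∈ K)
    (hK : ∀ (B : Type) [Ring B] [Algebra (ZMod p) B] (ψ : FreeGroup (Fin n) →* B),
      Sat a i ψ → K ≤ ψ.ker) (g g' : Fin n → Matrix ι ι E) (D : Fin n → Matrix ι ι (ZMod p))
    (ρ : FreeGroup (Fin n) →* Matrix ι ι E) (h1 : ∀ j, g j * g' j = 1)
    (h2 : ∀ j, ρ (.of j) = g j * (algebraMap (ZMod p) E).mapMatrix (D j) * g' j) (h3 : Sat a i ρ)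
    (x y : Derivation (ZMod p) E E) (hmem : (List.ofFn FreeGroup.of).prod ^ e ∈ NN p K) :
    ∃ s, (1 + S.ε ^ 2 * S.j (lam n (fun j => ρ.toHomUnits (.of j))
      (fun j => (g j).map x * g' j) (fun j => (g j).map y * g' j)) + S.ε ^ 3 * s) ^ e = 1 := by
  have h1' : ∀ j, g' j * g j = 1 := fun j => mul_eq_one_comm.mp (h1 j)
  obtain ⟨σ, z, hσ⟩ := exists_lift co x y (algebraMap A _ S.ε) S.t S.t' (S.nil.map _)
  have hσ' : ∀ m : Matrix ι ι E, σ.mapMatrix m =
      S.κ m + S.ε • (S.fo (m.map y) (m.map x) + S.ε • m.map z) := fun m => by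
    refine Matrix.ext fun u v => ?_
    simp only [hσ, hκ, Setup.fo, AlgHom.mapMatrix_apply, map_apply, Matrix.add_apply,
      Matrix.smul_apply, smul_eq_mul, ← Algebra.smul_def]
  refine S.cert (p := p) (fun j => ρ.toHomUnits (.of j)) (fun j => (g j).map y * g' j)
    (fun j => (g j).map x * g' j) (fun j => σ.mapMatrix (g j) * S.κ (g' j))
    (fun j => S.κ (g j) * σ.mapMatrix (g' j)) (fun j => (g j).map z * S.κ (g' j)) (fun j => ?_)
    (fun j => ?_) (fun j => Units.ext ?_) _ (fun j => ?_) K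
    (hK _ _ (h3.map σ.toRingHom.mapMatrix)) hr hmem
  · rw [hσ', add_mul, ← map_mul, h1, map_one]
    simp only [Setup.fo, map_mul, add_mul, smul_mul_assoc]
  · rw [mul_assoc, ← mul_assoc (S.κ _), ← map_mul, h1', map_one, one_mul, ← map_mul, h1, map_one]
  · nontriviality Matrix ι ι E
    have := charP_of_injective_algebraMap (algebraMap (ZMod p) (Matrix ι ι E)).injective p
    have h6 := add_pow_char_of_commute p (Commute.one_left (ρ (.of j) - 1))
    rw [pow_eq_zero_of_le (a := ρ (.of j) - 1) (Fact.out : p.Prime).two_le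
      (by rw [pow_two]; exact h3.1 j)] at h6
    simpa using h6
  · change σ.mapMatrix (ρ (.of j)) = _ * S.κ (ρ (.of j)) * _
    have h6 : σ.mapMatrix ((algebraMap (ZMod p) E).mapMatrix (D j)) =
        S.κ ((algebraMap (ZMod p) E).mapMatrix (D j)) := by
      rw [hκ]; exact Matrix.ext fun _ _ => (σ.commutes _).trans (co.commutes _).symm
    have h7 : ∀ w, S.κ (g' j) * (S.κ (g j) * w) = w := fun w => by
      rw [← mul_assoc, ← map_mul, h1', map_one, one_mul]
    rw [h2]
    simp only [map_mul, h6, mul_assoc, h7]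

open Polynomial LaurentPolynomial in
theorem cert2 {p n : ℕ} [Fact p.Prime] {E ι : Type} [Field E] [Algebra (ZMod p) E]
    [Algebra.EssFiniteType (ZMod p) E] [Fintype ι] [DecidableEq ι]
    {a : ℕ → FreeGroup (Fin n) × FreeGroup (Fin n)} {i e : ℕ} {K : Subgroup (FreeGroup (Fin n))}
    (he : 0 < e) (hr : (List.ofFn FreeGroup.of).prod ∈ K)
    (hK : ∀ (B : Type) [Ring B] [Algebra (ZMod p) B] (ψ : FreeGroup (Fin n) →* B),
      Sat a i ψ → K ≤ ψ.ker) (g g' : Fin n → Matrix ι ι E) (D : Fin n → Matrix ι ι (ZMod p))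
    (ρ : FreeGroup (Fin n) →* Matrix ι ι E) (h1 : ∀ j, g j * g' j = 1)
    (h2 : ∀ j, ρ (.of j) = g j * (algebraMap (ZMod p) E).mapMatrix (D j) * g' j) (h3 : Sat a i ρ)
    (x y : Derivation (ZMod p) E E) (hxy : lam n (fun j => ρ.toHomUnits (.of j))
      (fun j => (g j).map x * g' j) (fun j => (g j).map y * g' j) ≠ 0) :
    (List.ofFn FreeGroup.of).prod ^ e ∉ NN p K := by
  intro hmem
  obtain ⟨A, _, _, ε, e0, e1⟩ : ∃ (A : Type) (_ : CommRing A) (_ : Algebra E A) (ε : A),
      ε ^ (2 * e + 1) = 0 ∧ ε ^ (2 * e) ≠ 0 := by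
    refine ⟨AdjoinRoot (X ^ (2 * e + 1) : E[X]), inferInstance, inferInstance, AdjoinRoot.root _,
      by rw [← AdjoinRoot.mk_X, ← map_pow, AdjoinRoot.mk_self], ?_⟩
    rw [← AdjoinRoot.mk_X, ← map_pow, Ne, AdjoinRoot.mk_eq_zero, pow_dvd_pow_iff X_ne_zero
      not_isUnit_X]
    omega
  let _ : Algebra (ZMod p) A := ((algebraMap E A).comp (algebraMap (ZMod p) E)).toAlgebra
  obtain ⟨S, s1, s2, s3⟩ := exists_setup ι (algebraMap E A) ε ⟨_, e0⟩
  obtain ⟨s, hs⟩ := cert1 S ⟨(algebraMap A _).comp (algebraMap E A), fun _ => rfl⟩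
    (fun m => by rw [s1]; rfl) hr hK g g' D ρ h1 h2 h3 x y hmem
  rw [s2, s3] at hs
  exact not_torsion (p := p) he (hxy.isUnit.map _) e0 e1 s hs

theorem geo (i : ℕ) : ∑ k ∈ Finset.range i, 2 ^ (i - k) + 2 = 2 ^ (i + 1) := by
  induction i with
  | zero => rfl
  | succ i ih =>
    rw [Finset.sum_range_succ']
    simp only [Nat.add_sub_add_right, Nat.sub_zero]
    omega

theorem main_cert {p : ℕ} [Fact p.Prime] (a : ℕ → FreeGroup (Fin 10) × FreeGroup (Fin 10))
    (i e : ℕ) (K : Subgroup (FreeGroup (Fin 10))) (he : 0 < e)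
    (hr : (List.ofFn FreeGroup.of).prod ∈ K)
    (hK : ∀ (B : Type) [Ring B] [Algebra (ZMod p) B] (ψ : FreeGroup (Fin 10) →* B),
      Sat a i ψ → K ≤ ψ.ker) : (List.ofFn FreeGroup.of).prod ^ e ∉ NN p K := by
  obtain ⟨h, hh⟩ : ∃ h, h = 2 ^ (i + 4) := ⟨_, rfl⟩
  have h0 : 0 < h := hh ▸ Nat.two_pow_pos _
  obtain ⟨U, P, Q, hU, hPQ⟩ := exists_U (ZMod p) h
  let c : Fin 10 → ZMod p := fun j => (-1) ^ (j : ℕ)
  obtain ⟨s, hs⟩ : ∃ s, s = ∑ k ∈ Finset.range i, 2 ^ (i - k) := ⟨_, rfl⟩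
  have hs' : 8 * s ≤ h := by
    have := geo i
    rw [← hs, pow_succ] at this
    rw [pow_add] at hh
    omega
  obtain ⟨E, _, _, _, g, g', ρ, h1, h2, h3, h4, h5⟩ := family (by omega) U hU c
    (by simp only [c, Fin.sum_univ_succ]; norm_num) a i (fun k => 2 ^ (i - k)) (fun k hk =>
      ⟨Nat.two_pow_pos _, by rw [← pow_add, show k + 5 + (i - k) = i + 4 + 1 by omega]; omega⟩)
    (9 * ((h + h) * (h + h)) - (h + h) * s) (by rw [← hs, Nat.sub_add_cancel]; nlinarith)
  have h1' : ∀ j, g' j * g j = 1 := fun j => mul_eq_one_comm.mp (h1 j)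
  let f : Derivation (ZMod p) E E →ₗ[E] Fin 10 → Matrix (Fin (h + h)) (Fin (h + h)) E :=
    { toFun := fun δ j => (g j).map δ * g' j
      map_add' := fun _ _ => funext fun j => by rw [Pi.add_apply, ← add_mul]; rfl
      map_smul' := fun _ _ => funext fun j => by rw [Pi.smul_apply, ← smul_mul_assoc]; rfl }
  have hf : Function.Injective f := (injective_iff_map_eq_zero f).mpr fun δ hδ => h4 δ fun j => by
    rw [← mul_one (map _ _), ← h1' j, ← mul_assoc, show (g j).map δ * g' j = 0 from congrFun hδ j,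
      zero_mul]
  have := FiniteDimensional.of_injective f hf
  let al := algebraMap (ZMod p) E
  obtain ⟨x, y, hxy⟩ := exists_lam_ne (fun j => ρ.toHomUnits (.of j))
    (fun j => al (c j) • P.map al * g' j) (fun j => g j * Q.map al) h3.1 (fun j => by
      have h6 : ρ (.of j) - 1 = g j * (al (c j) • U.map al) * g' j := by
        rw [h2, map_add, map_one, mul_add, add_mul, mul_one, h1, add_sub_cancel_left]
        congr 2
        ext; simp [al]
      have h7 : al (c j) * al (c j) = 1 := by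
        rw [← map_mul, ← mul_pow, neg_one_mul, neg_neg, one_pow, map_one]
      rw [MonoidHom.coe_toHomUnits, h6]
      simp only [Matrix.mul_assoc, ← Matrix.mul_assoc (g' j) (g j), h1', Matrix.one_mul,
        Matrix.smul_mul, Matrix.mul_smul, smul_smul, h7, one_smul]
      rw [← Matrix.map_mul, ← Matrix.map_mul, ← Matrix.mul_assoc, hPQ]
      simp) f hf (by
      have h6 := h5.trans (der_rank (ZMod p) E)
      rw [← Module.finrank_eq_rank, Nat.cast_le, Nat.sub_le_iff_le_add] at h6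
      simp only [Fintype.card_fin]
      generalize Module.finrank E (Derivation (ZMod p) E E) = w at h6
      clear * - h6 hs' h0
      nlinarith)
  exact cert2 he hr hK g g' _ ρ h1 h2 h3 x y hxy

end Pool.Agent.MP_94218c_al
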